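import Pool.Agent.helper14.NR.E8b.PN1

/-!
Generated: certificates.
-/

namespace Pool.Agent.helper14.NR.E8b

open Pool.Agent.helper31.IA (Z)
open Pool.Agent.helper31.IX (Op XOps runX Cov CovD cov_split covD_split)
open Pool.Agent.helper31.IC (TD)
open Pool.Agent.helper63.RG (reloc)
open Pool.Agent.helper63.NF hiding TD
open Pool.Agent.helper14.CF (xE covD_E)
open Pool.Agent.helper14.NR (share)

mutual
theorem A1_c0_t7 : CovD 1 gA1 [(97352417280, 5726797824), (309237645312, 34359738368), (687194767360, 687194767360)] :=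
  covD_E kA1_eq (.n 2 (.n 2 (.n 2 (.n 2 (.l 0) (.l 0)) (.n 2 (.l 0) (.l 0))) (.n 2 (.n 2 (.l 0) (.l 0)) (.n 2 (.l 0) (.l 0)))) (.n 2 (.n 2 (.n 2 (.l 0) (.l 0)) (.n 2 (.l 0) (.l 0))) (.n 0 (.n 2 (.l 0) (.l 0)) (.n 2 (.l 0) (.l 0)))))
    [(97352417280, 5726797824), (309237645312, 34359738368), (687194767360, 687194767360)] rfl (by decide +kernel)
theorem A1_c0_t8 : CovD 1 gA1 [(97352417280, 5726797824), (309237645312, 34359738368), (2061584302080, 687194767360)] :=
  covD_E kA1_eq (.n 2 (.n 2 (.n 2 (.l 0) (.l 0)) (.n 2 (.l 0) (.l 0))) (.n 2 (.n 0 (.l 0) (.l 0)) (.l 0)))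
    [(97352417280, 5726797824), (309237645312, 34359738368), (2061584302080, 687194767360)] rfl (by decide +kernel)
end

mutual
theorem A1_c0_t10 : CovD 1 gA1 [(97352417280, 5726797824), (377957122048, 34359738368), (687194767360, 687194767360)] :=
  covD_E kA1_eq (.n 2 (.n 2 (.n 2 (.n 2 (.l 0) (.l 0)) (.n 2 (.l 0) (.l 0))) (.n 2 (.n 2 (.l 0) (.l 0)) (.n 2 (.l 0) (.l 0)))) (.n 0 (.n 2 (.n 2 (.l 0) (.l 0)) (.n 2 (.l 0) (.l 0))) (.n 2 (.n 2 (.l 0) (.l 0)) (.n 2 (.l 0) (.l 0)))))
    [(97352417280, 5726797824), (377957122048, 34359738368), (687194767360, 687194767360)] rfl (by decide +kernel)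
theorem A1_c0_t11 : CovD 1 gA1 [(97352417280, 5726797824), (377957122048, 34359738368), (2061584302080, 687194767360)] :=
  covD_E kA1_eq (.n 2 (.n 2 (.n 2 (.l 0) (.l 0)) (.n 2 (.l 0) (.l 0))) (.n 2 (.n 0 (.l 0) (.l 0)) (.l 0)))
    [(97352417280, 5726797824), (377957122048, 34359738368), (2061584302080, 687194767360)] rfl (by decide +kernel)
end

mutual
theorem A1_c0_t14 : CovD 1 gA1 [(97352417280, 5726797824), (446676598784, 34359738368), (687194767360, 687194767360)] :=
  covD_E kA1_eq (.n 2 (.n 2 (.n 2 (.n 2 (.l 0) (.l 0)) (.n 2 (.l 0) (.l 0))) (.n 2 (.n 2 (.l 0) (.l 0)) (.n 0 (.l 0) (.l 0)))) (.n 2 (.n 0 (.n 2 (.l 0) (.l 0)) (.n 2 (.l 0) (.l 0))) (.n 2 (.n 0 (.l 0) (.l 0)) (.l 0))))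
    [(97352417280, 5726797824), (446676598784, 34359738368), (687194767360, 687194767360)] rfl (by decide +kernel)
theorem A1_c0_t15 : CovD 1 gA1 [(97352417280, 5726797824), (446676598784, 34359738368), (2061584302080, 687194767360)] :=
  covD_E kA1_eq (.n 2 (.n 2 (.n 2 (.l 0) (.l 0)) (.n 2 (.l 0) (.l 0))) (.n 2 (.n 0 (.l 0) (.l 0)) (.l 0)))
    [(97352417280, 5726797824), (446676598784, 34359738368), (2061584302080, 687194767360)] rfl (by decide +kernel)
end

mutual
theorem A1_c0_t17 : CovD 1 gA1 [(97352417280, 5726797824), (515396075520, 34359738368), (687194767360, 687194767360)] :=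
  covD_E kA1_eq (.n 2 (.n 2 (.n 2 (.n 2 (.l 0) (.l 0)) (.n 2 (.l 0) (.l 0))) (.n 2 (.n 2 (.l 0) (.l 0)) (.n 0 (.l 0) (.l 0)))) (.n 0 (.n 2 (.n 2 (.l 0) (.l 0)) (.n 2 (.l 0) (.l 0))) (.n 2 (.n 2 (.l 0) (.l 0)) (.n 2 (.l 0) (.l 0)))))
    [(97352417280, 5726797824), (515396075520, 34359738368), (687194767360, 687194767360)] rfl (by decide +kernel)
theorem A1_c0_t18 : CovD 1 gA1 [(97352417280, 5726797824), (515396075520, 34359738368), (2061584302080, 687194767360)] :=
  covD_E kA1_eq (.n 2 (.n 2 (.n 2 (.l 0) (.l 0)) (.n 2 (.l 0) (.l 0))) (.n 2 (.n 0 (.l 0) (.l 0)) (.l 0)))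
    [(97352417280, 5726797824), (515396075520, 34359738368), (2061584302080, 687194767360)] rfl (by decide +kernel)
end

mutual
theorem A1_c0_t21 : CovD 1 gA1 [(97352417280, 5726797824), (343597383680, 68719476736), (3435973836800, 687194767360)] :=
  covD_E kA1_eq (.n 0 (.n 2 (.n 1 (.l 0) (.l 0)) (.n 2 (.l 0) (.n 2 (.l 0) (.l 1)))) (.n 2 (.n 1 (.l 0) (.l 0)) (.n 2 (.l 0) (.n 2 (.l 0) (.l 1)))))
    [(97352417280, 5726797824), (343597383680, 68719476736), (3435973836800, 687194767360)] rfl (by decide +kernel)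
theorem A1_c0_t22 : CovD 1 gA1 [(97352417280, 5726797824), (481036337152, 68719476736), (3435973836800, 687194767360)] :=
  covD_E kA1_eq (.n 2 (.n 0 (.n 2 (.l 0) (.l 0)) (.n 2 (.l 0) (.l 0))) (.n 2 (.n 0 (.l 0) (.l 0)) (.n 2 (.l 0) (.n 0 (.l 1) (.l 1)))))
    [(97352417280, 5726797824), (481036337152, 68719476736), (3435973836800, 687194767360)] rfl (by decide +kernel)
end

mutual
theorem A1_c0_t23 : CovD 1 gA1 [(97352417280, 5726797824), (412316860416, 137438953472), (4810363371520, 687194767360)] :=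
  covD_E kA1_eq (.n 2 (.n 0 (.l 1) (.l 1)) (.l 1))
    [(97352417280, 5726797824), (412316860416, 137438953472), (4810363371520, 687194767360)] rfl (by decide +kernel)
theorem A1_c0_t24 : CovD 1 gA1 [(97352417280, 5726797824), (412316860416, 137438953472), (8246337208320, 2748779069440)] :=
  covD_E kA1_eq (.n 2 (.n 0 (.n 2 (.l 1) (.l 1)) (.n 2 (.l 1) (.l 1))) (.n 2 (.l 1) (.l 1)))
    [(97352417280, 5726797824), (412316860416, 137438953472), (8246337208320, 2748779069440)] rfl (by decide +kernel)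
end

mutual
theorem A1_c0_t30 : CovD 1 gA1 [(108806012928, 5726797824), (309237645312, 34359738368), (687194767360, 687194767360)] :=
  covD_E kA1_eq (.n 2 (.n 2 (.n 2 (.n 2 (.l 0) (.l 0)) (.n 2 (.l 0) (.l 0))) (.n 2 (.n 2 (.l 0) (.l 0)) (.n 2 (.l 0) (.l 0)))) (.n 2 (.n 2 (.n 2 (.l 0) (.l 0)) (.n 1 (.l 0) (.l 0))) (.n 0 (.n 2 (.l 0) (.l 0)) (.n 2 (.l 0) (.l 0)))))
    [(108806012928, 5726797824), (309237645312, 34359738368), (687194767360, 687194767360)] rfl (by decide +kernel)
theorem A1_c0_t31 : CovD 1 gA1 [(108806012928, 5726797824), (309237645312, 34359738368), (2061584302080, 687194767360)] :=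
  covD_E kA1_eq (.n 2 (.n 2 (.n 2 (.l 0) (.l 0)) (.n 2 (.l 0) (.l 0))) (.n 2 (.n 0 (.l 0) (.l 0)) (.l 0)))
    [(108806012928, 5726797824), (309237645312, 34359738368), (2061584302080, 687194767360)] rfl (by decide +kernel)
end

mutual
theorem A1_c0_t33 : CovD 1 gA1 [(108806012928, 5726797824), (377957122048, 34359738368), (687194767360, 687194767360)] :=
  covD_E kA1_eq (.n 2 (.n 2 (.n 2 (.n 2 (.l 0) (.l 0)) (.n 2 (.l 0) (.l 0))) (.n 2 (.n 2 (.l 0) (.l 0)) (.n 2 (.l 0) (.l 0)))) (.n 2 (.n 0 (.n 2 (.l 0) (.l 0)) (.n 2 (.l 0) (.l 0))) (.n 2 (.n 0 (.l 0) (.l 0)) (.l 0))))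
    [(108806012928, 5726797824), (377957122048, 34359738368), (687194767360, 687194767360)] rfl (by decide +kernel)
theorem A1_c0_t34 : CovD 1 gA1 [(108806012928, 5726797824), (377957122048, 34359738368), (2061584302080, 687194767360)] :=
  covD_E kA1_eq (.n 2 (.n 2 (.n 2 (.l 0) (.l 0)) (.n 2 (.l 0) (.l 0))) (.n 2 (.n 0 (.l 0) (.l 0)) (.l 0)))
    [(108806012928, 5726797824), (377957122048, 34359738368), (2061584302080, 687194767360)] rfl (by decide +kernel)
end

mutual
theorem A1_c0_t37 : CovD 1 gA1 [(108806012928, 5726797824), (446676598784, 34359738368), (687194767360, 687194767360)] :=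
  covD_E kA1_eq (.n 2 (.n 2 (.n 2 (.n 2 (.l 0) (.l 0)) (.n 2 (.l 0) (.l 0))) (.n 2 (.n 2 (.l 0) (.l 0)) (.n 0 (.l 0) (.l 0)))) (.n 2 (.n 0 (.n 2 (.l 0) (.l 0)) (.n 2 (.l 0) (.l 0))) (.n 2 (.l 0) (.l 0))))
    [(108806012928, 5726797824), (446676598784, 34359738368), (687194767360, 687194767360)] rfl (by decide +kernel)
theorem A1_c0_t38 : CovD 1 gA1 [(108806012928, 5726797824), (446676598784, 34359738368), (2061584302080, 687194767360)] :=
  covD_E kA1_eq (.n 2 (.n 2 (.n 2 (.l 0) (.l 0)) (.n 2 (.l 0) (.l 0))) (.n 2 (.n 0 (.l 0) (.l 0)) (.l 0)))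
    [(108806012928, 5726797824), (446676598784, 34359738368), (2061584302080, 687194767360)] rfl (by decide +kernel)
end

mutual
theorem A1_c0_t40 : CovD 1 gA1 [(108806012928, 5726797824), (515396075520, 34359738368), (687194767360, 687194767360)] :=
  covD_E kA1_eq (.n 2 (.n 2 (.n 2 (.n 2 (.l 0) (.l 0)) (.n 2 (.l 0) (.l 0))) (.n 2 (.n 2 (.l 0) (.l 0)) (.n 0 (.l 0) (.l 0)))) (.n 2 (.n 0 (.n 2 (.l 0) (.l 0)) (.n 2 (.l 0) (.l 0))) (.n 2 (.l 0) (.l 0))))
    [(108806012928, 5726797824), (515396075520, 34359738368), (687194767360, 687194767360)] rfl (by decide +kernel)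
theorem A1_c0_t41 : CovD 1 gA1 [(108806012928, 5726797824), (515396075520, 34359738368), (2061584302080, 687194767360)] :=
  covD_E kA1_eq (.n 2 (.n 2 (.n 2 (.l 0) (.l 0)) (.n 2 (.l 0) (.l 0))) (.n 2 (.n 0 (.l 0) (.l 0)) (.l 0)))
    [(108806012928, 5726797824), (515396075520, 34359738368), (2061584302080, 687194767360)] rfl (by decide +kernel)
end

mutual
theorem A1_c0_t44 : CovD 1 gA1 [(108806012928, 5726797824), (343597383680, 68719476736), (3435973836800, 687194767360)] :=
  covD_E kA1_eq (.n 2 (.n 1 (.n 2 (.l 0) (.l 0)) (.n 0 (.l 0) (.l 0))) (.n 2 (.n 0 (.l 0) (.l 0)) (.n 2 (.n 0 (.l 0) (.l 0)) (.n 2 (.n 0 (.l 0) (.l 0)) (.l 1)))))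
    [(108806012928, 5726797824), (343597383680, 68719476736), (3435973836800, 687194767360)] rfl (by decide +kernel)
theorem A1_c0_t45 : CovD 1 gA1 [(108806012928, 5726797824), (481036337152, 68719476736), (3435973836800, 687194767360)] :=
  covD_E kA1_eq (.n 0 (.n 2 (.n 2 (.l 0) (.l 0)) (.n 2 (.l 0) (.n 2 (.l 0) (.l 1)))) (.n 2 (.n 2 (.l 0) (.l 0)) (.n 2 (.l 0) (.l 0))))
    [(108806012928, 5726797824), (481036337152, 68719476736), (3435973836800, 687194767360)] rfl (by decide +kernel)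
end

mutual
theorem A1_c0_t46 : CovD 1 gA1 [(108806012928, 5726797824), (412316860416, 137438953472), (4810363371520, 687194767360)] :=
  covD_E kA1_eq (.n 2 (.n 1 (.l 1) (.l 1)) (.l 1))
    [(108806012928, 5726797824), (412316860416, 137438953472), (4810363371520, 687194767360)] rfl (by decide +kernel)
theorem A1_c0_t47 : CovD 1 gA1 [(108806012928, 5726797824), (412316860416, 137438953472), (8246337208320, 2748779069440)] :=
  covD_E kA1_eq (.n 2 (.n 0 (.n 2 (.l 1) (.l 1)) (.n 2 (.l 1) (.l 1))) (.n 2 (.l 1) (.l 1)))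
    [(108806012928, 5726797824), (412316860416, 137438953472), (8246337208320, 2748779069440)] rfl (by decide +kernel)
end

mutual
theorem A1_c0_t54 : CovD 1 gA1 [(120259608576, 5726797824), (309237645312, 34359738368), (687194767360, 687194767360)] :=
  covD_E kA1_eq (.n 2 (.n 2 (.n 2 (.n 2 (.l 0) (.l 0)) (.n 2 (.l 0) (.l 0))) (.n 2 (.n 2 (.l 0) (.l 0)) (.n 2 (.l 0) (.l 0)))) (.n 2 (.n 2 (.n 2 (.l 0) (.l 0)) (.n 1 (.l 0) (.l 0))) (.n 0 (.n 2 (.l 0) (.l 0)) (.n 2 (.l 0) (.l 0)))))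
    [(120259608576, 5726797824), (309237645312, 34359738368), (687194767360, 687194767360)] rfl (by decide +kernel)
theorem A1_c0_t55 : CovD 1 gA1 [(120259608576, 5726797824), (309237645312, 34359738368), (2061584302080, 687194767360)] :=
  covD_E kA1_eq (.n 2 (.n 2 (.n 2 (.l 0) (.l 0)) (.n 2 (.l 0) (.l 0))) (.n 2 (.n 0 (.l 0) (.l 0)) (.l 0)))
    [(120259608576, 5726797824), (309237645312, 34359738368), (2061584302080, 687194767360)] rfl (by decide +kernel)
end

mutual
theorem A1_c0_t57 : CovD 1 gA1 [(120259608576, 5726797824), (377957122048, 34359738368), (687194767360, 687194767360)] :=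
  covD_E kA1_eq (.n 2 (.n 2 (.n 2 (.n 2 (.l 0) (.l 0)) (.n 2 (.l 0) (.l 0))) (.n 2 (.n 2 (.l 0) (.l 0)) (.n 2 (.l 0) (.l 0)))) (.n 2 (.n 0 (.n 2 (.l 0) (.l 0)) (.n 2 (.l 0) (.l 0))) (.n 2 (.n 0 (.l 0) (.l 0)) (.l 0))))
    [(120259608576, 5726797824), (377957122048, 34359738368), (687194767360, 687194767360)] rfl (by decide +kernel)
theorem A1_c0_t58 : CovD 1 gA1 [(120259608576, 5726797824), (377957122048, 34359738368), (2061584302080, 687194767360)] :=
  covD_E kA1_eq (.n 2 (.n 2 (.n 2 (.l 0) (.l 0)) (.n 0 (.l 0) (.l 0))) (.n 2 (.l 0) (.l 0)))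
    [(120259608576, 5726797824), (377957122048, 34359738368), (2061584302080, 687194767360)] rfl (by decide +kernel)
end

mutual
theorem A1_c0_t61 : CovD 1 gA1 [(120259608576, 5726797824), (446676598784, 34359738368), (687194767360, 687194767360)] :=
  covD_E kA1_eq (.n 2 (.n 2 (.n 2 (.n 2 (.l 0) (.l 0)) (.n 2 (.l 0) (.l 0))) (.n 2 (.n 2 (.l 0) (.l 0)) (.n 2 (.l 0) (.l 0)))) (.n 2 (.n 0 (.n 2 (.l 0) (.l 0)) (.n 2 (.l 0) (.l 0))) (.n 2 (.l 0) (.l 0))))
    [(120259608576, 5726797824), (446676598784, 34359738368), (687194767360, 687194767360)] rfl (by decide +kernel)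
theorem A1_c0_t62 : CovD 1 gA1 [(120259608576, 5726797824), (446676598784, 34359738368), (2061584302080, 687194767360)] :=
  covD_E kA1_eq (.n 2 (.n 2 (.n 2 (.l 0) (.l 0)) (.n 0 (.l 0) (.l 0))) (.n 2 (.l 0) (.l 0)))
    [(120259608576, 5726797824), (446676598784, 34359738368), (2061584302080, 687194767360)] rfl (by decide +kernel)
end

mutual
theorem A1_c0_t64 : CovD 1 gA1 [(120259608576, 5726797824), (515396075520, 34359738368), (687194767360, 687194767360)] :=
  covD_E kA1_eq (.n 2 (.n 2 (.n 2 (.n 2 (.l 0) (.l 0)) (.n 2 (.l 0) (.l 0))) (.n 2 (.n 2 (.l 0) (.l 0)) (.n 1 (.l 0) (.l 0)))) (.n 2 (.n 0 (.n 2 (.l 0) (.l 0)) (.n 2 (.l 0) (.l 0))) (.n 2 (.l 0) (.l 0))))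
    [(120259608576, 5726797824), (515396075520, 34359738368), (687194767360, 687194767360)] rfl (by decide +kernel)
theorem A1_c0_t65 : CovD 1 gA1 [(120259608576, 5726797824), (515396075520, 34359738368), (2061584302080, 687194767360)] :=
  covD_E kA1_eq (.n 2 (.n 2 (.n 2 (.l 0) (.l 0)) (.n 2 (.l 0) (.l 0))) (.n 2 (.n 0 (.l 0) (.l 0)) (.l 0)))
    [(120259608576, 5726797824), (515396075520, 34359738368), (2061584302080, 687194767360)] rfl (by decide +kernel)
end

mutual
theorem A1_c0_t67 : CovD 1 gA1 [(120259608576, 5726797824), (412316860416, 137438953472), (3435973836800, 687194767360)] :=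
  covD_E kA1_eq (.n 1 (.n 2 (.n 1 (.n 2 (.l 0) (.l 0)) (.n 0 (.l 0) (.l 0))) (.n 0 (.n 2 (.l 0) (.l 0)) (.n 1 (.l 0) (.l 0)))) (.n 0 (.n 1 (.n 2 (.l 0) (.l 0)) (.n 2 (.l 0) (.l 0))) (.n 1 (.n 2 (.l 0) (.l 0)) (.n 2 (.l 0) (.l 0)))))
    [(120259608576, 5726797824), (412316860416, 137438953472), (3435973836800, 687194767360)] rfl (by decide +kernel)
theorem A1_c0_t68 : CovD 1 gA1 [(120259608576, 5726797824), (412316860416, 137438953472), (4810363371520, 687194767360)] :=
  covD_E kA1_eq (.n 2 (.n 1 (.l 1) (.l 1)) (.l 1))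
    [(120259608576, 5726797824), (412316860416, 137438953472), (4810363371520, 687194767360)] rfl (by decide +kernel)
end

mutual
theorem A1_c0_t69 : CovD 1 gA1 [(120259608576, 5726797824), (412316860416, 137438953472), (8246337208320, 2748779069440)] :=
  covD_E kA1_eq (.n 2 (.n 2 (.n 0 (.l 1) (.l 1)) (.l 1)) (.n 2 (.l 1) (.l 1)))
    [(120259608576, 5726797824), (412316860416, 137438953472), (8246337208320, 2748779069440)] rfl (by decide +kernel)
theorem A1_c0_t75 : CovD 1 gA1 [(131713204224, 5726797824), (309237645312, 34359738368), (687194767360, 687194767360)] :=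
  covD_E kA1_eq (.n 2 (.n 2 (.n 2 (.n 2 (.l 0) (.l 0)) (.n 2 (.l 0) (.l 0))) (.n 2 (.n 2 (.l 0) (.l 0)) (.n 2 (.l 0) (.l 0)))) (.n 2 (.n 2 (.n 2 (.l 0) (.l 0)) (.n 1 (.l 0) (.l 0))) (.n 0 (.n 2 (.l 0) (.l 0)) (.n 2 (.l 0) (.l 0)))))
    [(131713204224, 5726797824), (309237645312, 34359738368), (687194767360, 687194767360)] rfl (by decide +kernel)
end

mutual
theorem A1_c0_t76 : CovD 1 gA1 [(131713204224, 5726797824), (309237645312, 34359738368), (2061584302080, 687194767360)] :=
  covD_E kA1_eq (.n 2 (.n 2 (.n 2 (.l 0) (.l 0)) (.n 0 (.l 0) (.l 0))) (.n 2 (.n 0 (.l 0) (.l 0)) (.l 0)))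
    [(131713204224, 5726797824), (309237645312, 34359738368), (2061584302080, 687194767360)] rfl (by decide +kernel)
theorem A1_c0_t78 : CovD 1 gA1 [(131713204224, 5726797824), (377957122048, 34359738368), (687194767360, 687194767360)] :=
  covD_E kA1_eq (.n 2 (.n 2 (.n 2 (.n 2 (.l 0) (.l 0)) (.n 2 (.l 0) (.l 0))) (.n 2 (.n 2 (.l 0) (.l 0)) (.n 2 (.l 0) (.l 0)))) (.n 2 (.n 1 (.n 2 (.l 0) (.l 0)) (.n 2 (.l 0) (.l 0))) (.n 2 (.n 0 (.l 0) (.l 0)) (.l 0))))
    [(131713204224, 5726797824), (377957122048, 34359738368), (687194767360, 687194767360)] rfl (by decide +kernel)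
end

mutual
theorem A1_c0_t79 : CovD 1 gA1 [(131713204224, 5726797824), (377957122048, 34359738368), (2061584302080, 687194767360)] :=
  covD_E kA1_eq (.n 2 (.n 2 (.n 2 (.l 0) (.l 0)) (.n 0 (.l 0) (.l 0))) (.n 2 (.l 0) (.l 0)))
    [(131713204224, 5726797824), (377957122048, 34359738368), (2061584302080, 687194767360)] rfl (by decide +kernel)
theorem A1_c0_t82 : CovD 1 gA1 [(131713204224, 5726797824), (446676598784, 34359738368), (687194767360, 687194767360)] :=
  covD_E kA1_eq (.n 2 (.n 2 (.n 2 (.n 2 (.l 0) (.l 0)) (.n 2 (.l 0) (.l 0))) (.n 2 (.n 2 (.l 0) (.l 0)) (.n 2 (.l 0) (.l 0)))) (.n 2 (.n 0 (.n 2 (.l 0) (.l 0)) (.n 2 (.l 0) (.l 0))) (.n 2 (.l 0) (.l 0))))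
    [(131713204224, 5726797824), (446676598784, 34359738368), (687194767360, 687194767360)] rfl (by decide +kernel)
end

mutual
theorem A1_c0_t83 : CovD 1 gA1 [(131713204224, 5726797824), (446676598784, 34359738368), (2061584302080, 687194767360)] :=
  covD_E kA1_eq (.n 2 (.n 2 (.n 2 (.l 0) (.l 0)) (.n 0 (.l 0) (.l 0))) (.n 2 (.l 0) (.l 0)))
    [(131713204224, 5726797824), (446676598784, 34359738368), (2061584302080, 687194767360)] rfl (by decide +kernel)
theorem A1_c0_t85 : CovD 1 gA1 [(131713204224, 5726797824), (515396075520, 34359738368), (687194767360, 687194767360)] :=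
  covD_E kA1_eq (.n 2 (.n 2 (.n 2 (.n 2 (.l 0) (.l 0)) (.n 2 (.l 0) (.l 0))) (.n 2 (.n 2 (.l 0) (.l 0)) (.n 2 (.l 0) (.l 0)))) (.n 2 (.n 0 (.n 2 (.l 0) (.l 0)) (.n 2 (.l 0) (.l 0))) (.n 2 (.n 0 (.l 0) (.l 0)) (.l 0))))
    [(131713204224, 5726797824), (515396075520, 34359738368), (687194767360, 687194767360)] rfl (by decide +kernel)
end

mutual
theorem A1_c0_t86 : CovD 1 gA1 [(131713204224, 5726797824), (515396075520, 34359738368), (2061584302080, 687194767360)] :=
  covD_E kA1_eq (.n 2 (.n 2 (.n 2 (.l 0) (.l 0)) (.n 2 (.l 0) (.l 0))) (.n 2 (.n 0 (.l 0) (.l 0)) (.l 0)))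
    [(131713204224, 5726797824), (515396075520, 34359738368), (2061584302080, 687194767360)] rfl (by decide +kernel)
theorem A1_c0_t87 : CovD 1 gA1 [(131713204224, 5726797824), (412316860416, 137438953472), (4123168604160, 1374389534720)] :=
  covD_E kA1_eq (.n 2 (.n 1 (.n 1 (.n 2 (.n 2 (.l 0) (.l 0)) (.n 0 (.l 0) (.l 0))) (.n 2 (.n 0 (.l 0) (.l 0)) (.l 0))) (.n 1 (.n 2 (.n 0 (.l 0) (.l 0)) (.l 0)) (.n 2 (.n 0 (.l 0) (.l 0)) (.l 0)))) (.n 2 (.n 1 (.l 1) (.l 1)) (.l 1)))
    [(131713204224, 5726797824), (412316860416, 137438953472), (4123168604160, 1374389534720)] rfl (by decide +kernel)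
end

mutual
theorem A1_c0_t88 : CovD 1 gA1 [(131713204224, 5726797824), (412316860416, 137438953472), (8246337208320, 2748779069440)] :=
  covD_E kA1_eq (.n 2 (.n 0 (.n 2 (.l 1) (.l 1)) (.n 2 (.l 1) (.l 1))) (.n 2 (.l 1) (.l 1)))
    [(131713204224, 5726797824), (412316860416, 137438953472), (8246337208320, 2748779069440)] rfl (by decide +kernel)
theorem B1_c0_t4 : CovD 1 gB1 [(97352417280, 5726797824), (343597383680, 68719476736), (27487895552, 27487895552)] :=
  covD_E kB1_eq (.n 2 (.n 2 (.n 2 (.n 2 (.l 1) (.l 1)) (.n 2 (.l 1) (.l 1))) (.n 0 (.n 2 (.l 1) (.l 1)) (.n 2 (.l 1) (.l 1)))) (.n 2 (.n 2 (.l 1) (.l 1)) (.n 2 (.l 1) (.l 1))))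
    [(97352417280, 5726797824), (343597383680, 68719476736), (27487895552, 27487895552)] rfl (by decide +kernel)
end

mutual
theorem B1_c0_t5 : CovD 1 gB1 [(97352417280, 5726797824), (481036337152, 68719476736), (27487895552, 27487895552)] :=
  covD_E kB1_eq (.n 2 (.n 2 (.n 2 (.n 2 (.l 1) (.l 1)) (.n 2 (.l 1) (.l 1))) (.n 2 (.n 0 (.l 1) (.l 1)) (.l 1))) (.n 2 (.n 2 (.l 1) (.l 1)) (.n 0 (.l 1) (.l 1))))
    [(97352417280, 5726797824), (481036337152, 68719476736), (27487895552, 27487895552)] rfl (by decide +kernel)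
theorem B1_c0_t6 : CovD 1 gB1 [(97352417280, 5726797824), (412316860416, 137438953472), (82463686656, 27487895552)] :=
  covD_E kB1_eq (.n 2 (.n 1 (.n 2 (.n 0 (.l 1) (.l 1)) (.l 1)) (.n 2 (.l 1) (.l 1))) (.n 2 (.n 0 (.l 1) (.l 1)) (.l 1)))
    [(97352417280, 5726797824), (412316860416, 137438953472), (82463686656, 27487895552)] rfl (by decide +kernel)
end

mutual
theorem B1_c0_t9 : CovD 1 gB1 [(108806012928, 5726797824), (343597383680, 68719476736), (27487895552, 27487895552)] :=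
  covD_E kB1_eq (.n 2 (.n 1 (.n 2 (.n 2 (.l 1) (.l 1)) (.n 2 (.l 1) (.l 1))) (.n 2 (.n 2 (.l 1) (.l 1)) (.n 2 (.l 1) (.l 1)))) (.n 2 (.n 2 (.l 1) (.l 1)) (.n 0 (.l 1) (.l 1))))
    [(108806012928, 5726797824), (343597383680, 68719476736), (27487895552, 27487895552)] rfl (by decide +kernel)
theorem B1_c0_t10 : CovD 1 gB1 [(108806012928, 5726797824), (343597383680, 68719476736), (82463686656, 27487895552)] :=
  covD_E kB1_eq (.n 2 (.n 2 (.n 0 (.l 1) (.l 1)) (.l 1)) (.n 2 (.l 1) (.l 1)))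
    [(108806012928, 5726797824), (343597383680, 68719476736), (82463686656, 27487895552)] rfl (by decide +kernel)
end

mutual
theorem B1_c0_t11 : CovD 1 gB1 [(108806012928, 5726797824), (481036337152, 68719476736), (54975791104, 54975791104)] :=
  covD_E kB1_eq (.n 2 (.n 2 (.n 2 (.n 1 (.n 2 (.l 1) (.l 1)) (.n 2 (.l 1) (.l 1))) (.n 2 (.n 0 (.l 1) (.l 1)) (.l 1))) (.n 2 (.n 2 (.l 1) (.l 1)) (.n 0 (.l 1) (.l 1)))) (.n 2 (.n 2 (.l 1) (.l 1)) (.n 2 (.l 1) (.l 1))))
    [(108806012928, 5726797824), (481036337152, 68719476736), (54975791104, 54975791104)] rfl (by decide +kernel)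
theorem B1_c0_t14 : CovD 1 gB1 [(120259608576, 5726797824), (343597383680, 68719476736), (54975791104, 54975791104)] :=
  covD_E kB1_eq (.n 2 (.n 2 (.n 2 (.n 0 (.n 2 (.l 1) (.l 1)) (.n 2 (.l 1) (.l 1))) (.n 2 (.l 1) (.l 1))) (.n 2 (.n 2 (.l 1) (.l 1)) (.n 0 (.l 1) (.l 1)))) (.n 2 (.n 2 (.l 1) (.l 1)) (.n 0 (.l 1) (.l 1))))
    [(120259608576, 5726797824), (343597383680, 68719476736), (54975791104, 54975791104)] rfl (by decide +kernel)
end

mutual
theorem B1_c0_t15 : CovD 1 gB1 [(131713204224, 5726797824), (343597383680, 68719476736), (54975791104, 54975791104)] :=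
  covD_E kB1_eq (.n 2 (.n 2 (.n 2 (.n 2 (.l 1) (.l 1)) (.n 2 (.l 1) (.l 1))) (.n 2 (.n 2 (.l 1) (.l 1)) (.n 0 (.l 1) (.l 1)))) (.n 2 (.n 2 (.l 1) (.l 1)) (.n 0 (.l 1) (.l 1))))
    [(131713204224, 5726797824), (343597383680, 68719476736), (54975791104, 54975791104)] rfl (by decide +kernel)
theorem B1_c0_t17 : CovD 1 gB1 [(125986406400, 11453595648), (481036337152, 68719476736), (27487895552, 27487895552)] :=
  covD_E kB1_eq (.n 2 (.n 2 (.n 2 (.n 2 (.l 1) (.l 1)) (.n 0 (.l 1) (.l 1))) (.n 0 (.n 2 (.l 1) (.l 1)) (.n 2 (.l 1) (.l 1)))) (.n 0 (.n 2 (.n 2 (.l 1) (.l 1)) (.n 0 (.l 1) (.l 1))) (.n 2 (.n 2 (.l 1) (.l 1)) (.n 0 (.l 1) (.l 1)))))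
    [(125986406400, 11453595648), (481036337152, 68719476736), (27487895552, 27487895552)] rfl (by decide +kernel)
end

mutual
theorem B1_c0_t18 : CovD 1 gB1 [(125986406400, 11453595648), (481036337152, 68719476736), (82463686656, 27487895552)] :=
  covD_E kB1_eq (.n 2 (.n 0 (.n 2 (.l 1) (.l 1)) (.n 2 (.l 1) (.l 1))) (.n 2 (.l 1) (.l 1)))
    [(125986406400, 11453595648), (481036337152, 68719476736), (82463686656, 27487895552)] rfl (by decide +kernel)
theorem D1_c0_t1 : CovD 1 gD1 [(103079215104, 11453595648), (412316860416, 137438953472), (863554764800, 863554764800)] :=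
  covD_E kD1_eq (.n 1 (.n 0 (.n 2 (.n 2 (.l 0) (.l 0)) (.n 2 (.l 0) (.l 0))) (.n 2 (.n 2 (.l 0) (.l 0)) (.n 2 (.l 0) (.l 0)))) (.n 2 (.n 2 (.n 0 (.l 0) (.l 0)) (.n 2 (.l 0) (.l 0))) (.n 2 (.n 2 (.l 0) (.l 0)) (.n 2 (.l 0) (.l 0)))))
    [(103079215104, 11453595648), (412316860416, 137438953472), (863554764800, 863554764800)] rfl (by decide +kernel)
end

theorem D1_c0_t2 : CovD 1 gD1 [(125986406400, 11453595648), (412316860416, 137438953472), (863554764800, 863554764800)] :=
  covD_E kD1_eq (.n 1 (.n 2 (.n 0 (.n 2 (.l 0) (.l 0)) (.n 2 (.l 0) (.l 0))) (.n 2 (.n 1 (.l 0) (.l 0)) (.n 2 (.l 0) (.l 0)))) (.n 2 (.n 2 (.n 2 (.l 0) (.l 0)) (.n 2 (.l 0) (.l 0))) (.n 2 (.n 2 (.l 0) (.l 0)) (.n 2 (.l 0) (.l 0)))))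
    [(125986406400, 11453595648), (412316860416, 137438953472), (863554764800, 863554764800)] rfl (by decide +kernel)

theorem A1_c0_t6 : CovD 1 gA1 [(97352417280, 5726797824), (309237645312, 34359738368), (1374389534720, 1374389534720)] :=
  covD_split 2 (by decide +kernel) A1_c0_t7 A1_c0_t8

theorem A1_c0_t9 : CovD 1 gA1 [(97352417280, 5726797824), (377957122048, 34359738368), (1374389534720, 1374389534720)] :=
  covD_split 2 (by decide +kernel) A1_c0_t10 A1_c0_t11

theorem A1_c0_t5 : CovD 1 gA1 [(97352417280, 5726797824), (343597383680, 68719476736), (1374389534720, 1374389534720)] :=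
  covD_split 1 (by decide +kernel) A1_c0_t6 A1_c0_t9

theorem A1_c0_t13 : CovD 1 gA1 [(97352417280, 5726797824), (446676598784, 34359738368), (1374389534720, 1374389534720)] :=
  covD_split 2 (by decide +kernel) A1_c0_t14 A1_c0_t15

theorem A1_c0_t16 : CovD 1 gA1 [(97352417280, 5726797824), (515396075520, 34359738368), (1374389534720, 1374389534720)] :=
  covD_split 2 (by decide +kernel) A1_c0_t17 A1_c0_t18

theorem A1_c0_t12 : CovD 1 gA1 [(97352417280, 5726797824), (481036337152, 68719476736), (1374389534720, 1374389534720)] :=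
  covD_split 1 (by decide +kernel) A1_c0_t13 A1_c0_t16

theorem A1_c0_t4 : CovD 1 gA1 [(97352417280, 5726797824), (412316860416, 137438953472), (1374389534720, 1374389534720)] :=
  covD_split 1 (by decide +kernel) A1_c0_t5 A1_c0_t12

theorem A1_c0_t20 : CovD 1 gA1 [(97352417280, 5726797824), (412316860416, 137438953472), (3435973836800, 687194767360)] :=
  covD_split 1 (by decide +kernel) A1_c0_t21 A1_c0_t22

theorem A1_c0_t19 : CovD 1 gA1 [(97352417280, 5726797824), (412316860416, 137438953472), (4123168604160, 1374389534720)] :=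
  covD_split 2 (by decide +kernel) A1_c0_t20 A1_c0_t23

theorem A1_c0_t3 : CovD 1 gA1 [(97352417280, 5726797824), (412316860416, 137438953472), (2748779069440, 2748779069440)] :=
  covD_split 2 (by decide +kernel) A1_c0_t4 A1_c0_t19

theorem A1_c0_t2 : CovD 1 gA1 [(97352417280, 5726797824), (412316860416, 137438953472), (5497558138880, 5497558138880)] :=
  covD_split 2 (by decide +kernel) A1_c0_t3 A1_c0_t24

theorem A1_c0_t29 : CovD 1 gA1 [(108806012928, 5726797824), (309237645312, 34359738368), (1374389534720, 1374389534720)] :=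
  covD_split 2 (by decide +kernel) A1_c0_t30 A1_c0_t31

theorem A1_c0_t32 : CovD 1 gA1 [(108806012928, 5726797824), (377957122048, 34359738368), (1374389534720, 1374389534720)] :=
  covD_split 2 (by decide +kernel) A1_c0_t33 A1_c0_t34

theorem A1_c0_t28 : CovD 1 gA1 [(108806012928, 5726797824), (343597383680, 68719476736), (1374389534720, 1374389534720)] :=
  covD_split 1 (by decide +kernel) A1_c0_t29 A1_c0_t32

theorem A1_c0_t36 : CovD 1 gA1 [(108806012928, 5726797824), (446676598784, 34359738368), (1374389534720, 1374389534720)] :=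
  covD_split 2 (by decide +kernel) A1_c0_t37 A1_c0_t38

theorem A1_c0_t39 : CovD 1 gA1 [(108806012928, 5726797824), (515396075520, 34359738368), (1374389534720, 1374389534720)] :=
  covD_split 2 (by decide +kernel) A1_c0_t40 A1_c0_t41

theorem A1_c0_t35 : CovD 1 gA1 [(108806012928, 5726797824), (481036337152, 68719476736), (1374389534720, 1374389534720)] :=
  covD_split 1 (by decide +kernel) A1_c0_t36 A1_c0_t39

theorem A1_c0_t27 : CovD 1 gA1 [(108806012928, 5726797824), (412316860416, 137438953472), (1374389534720, 1374389534720)] :=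
  covD_split 1 (by decide +kernel) A1_c0_t28 A1_c0_t35

theorem A1_c0_t43 : CovD 1 gA1 [(108806012928, 5726797824), (412316860416, 137438953472), (3435973836800, 687194767360)] :=
  covD_split 1 (by decide +kernel) A1_c0_t44 A1_c0_t45

theorem A1_c0_t42 : CovD 1 gA1 [(108806012928, 5726797824), (412316860416, 137438953472), (4123168604160, 1374389534720)] :=
  covD_split 2 (by decide +kernel) A1_c0_t43 A1_c0_t46

theorem A1_c0_t26 : CovD 1 gA1 [(108806012928, 5726797824), (412316860416, 137438953472), (2748779069440, 2748779069440)] :=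
  covD_split 2 (by decide +kernel) A1_c0_t27 A1_c0_t42

theorem A1_c0_t25 : CovD 1 gA1 [(108806012928, 5726797824), (412316860416, 137438953472), (5497558138880, 5497558138880)] :=
  covD_split 2 (by decide +kernel) A1_c0_t26 A1_c0_t47

theorem A1_c0_t1 : CovD 1 gA1 [(103079215104, 11453595648), (412316860416, 137438953472), (5497558138880, 5497558138880)] :=
  covD_split 0 (by decide +kernel) A1_c0_t2 A1_c0_t25

theorem A1_c0_t53 : CovD 1 gA1 [(120259608576, 5726797824), (309237645312, 34359738368), (1374389534720, 1374389534720)] :=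
  covD_split 2 (by decide +kernel) A1_c0_t54 A1_c0_t55

theorem A1_c0_t56 : CovD 1 gA1 [(120259608576, 5726797824), (377957122048, 34359738368), (1374389534720, 1374389534720)] :=
  covD_split 2 (by decide +kernel) A1_c0_t57 A1_c0_t58

theorem A1_c0_t52 : CovD 1 gA1 [(120259608576, 5726797824), (343597383680, 68719476736), (1374389534720, 1374389534720)] :=
  covD_split 1 (by decide +kernel) A1_c0_t53 A1_c0_t56

theorem A1_c0_t60 : CovD 1 gA1 [(120259608576, 5726797824), (446676598784, 34359738368), (1374389534720, 1374389534720)] :=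
  covD_split 2 (by decide +kernel) A1_c0_t61 A1_c0_t62

theorem A1_c0_t63 : CovD 1 gA1 [(120259608576, 5726797824), (515396075520, 34359738368), (1374389534720, 1374389534720)] :=
  covD_split 2 (by decide +kernel) A1_c0_t64 A1_c0_t65

theorem A1_c0_t59 : CovD 1 gA1 [(120259608576, 5726797824), (481036337152, 68719476736), (1374389534720, 1374389534720)] :=
  covD_split 1 (by decide +kernel) A1_c0_t60 A1_c0_t63

theorem A1_c0_t51 : CovD 1 gA1 [(120259608576, 5726797824), (412316860416, 137438953472), (1374389534720, 1374389534720)] :=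
  covD_split 1 (by decide +kernel) A1_c0_t52 A1_c0_t59

theorem A1_c0_t66 : CovD 1 gA1 [(120259608576, 5726797824), (412316860416, 137438953472), (4123168604160, 1374389534720)] :=
  covD_split 2 (by decide +kernel) A1_c0_t67 A1_c0_t68

theorem A1_c0_t50 : CovD 1 gA1 [(120259608576, 5726797824), (412316860416, 137438953472), (2748779069440, 2748779069440)] :=
  covD_split 2 (by decide +kernel) A1_c0_t51 A1_c0_t66

theorem A1_c0_t49 : CovD 1 gA1 [(120259608576, 5726797824), (412316860416, 137438953472), (5497558138880, 5497558138880)] :=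
  covD_split 2 (by decide +kernel) A1_c0_t50 A1_c0_t69

theorem A1_c0_t74 : CovD 1 gA1 [(131713204224, 5726797824), (309237645312, 34359738368), (1374389534720, 1374389534720)] :=
  covD_split 2 (by decide +kernel) A1_c0_t75 A1_c0_t76

theorem A1_c0_t77 : CovD 1 gA1 [(131713204224, 5726797824), (377957122048, 34359738368), (1374389534720, 1374389534720)] :=
  covD_split 2 (by decide +kernel) A1_c0_t78 A1_c0_t79

theorem A1_c0_t73 : CovD 1 gA1 [(131713204224, 5726797824), (343597383680, 68719476736), (1374389534720, 1374389534720)] :=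
  covD_split 1 (by decide +kernel) A1_c0_t74 A1_c0_t77

theorem A1_c0_t81 : CovD 1 gA1 [(131713204224, 5726797824), (446676598784, 34359738368), (1374389534720, 1374389534720)] :=
  covD_split 2 (by decide +kernel) A1_c0_t82 A1_c0_t83

theorem A1_c0_t84 : CovD 1 gA1 [(131713204224, 5726797824), (515396075520, 34359738368), (1374389534720, 1374389534720)] :=
  covD_split 2 (by decide +kernel) A1_c0_t85 A1_c0_t86

theorem A1_c0_t80 : CovD 1 gA1 [(131713204224, 5726797824), (481036337152, 68719476736), (1374389534720, 1374389534720)] :=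
  covD_split 1 (by decide +kernel) A1_c0_t81 A1_c0_t84

theorem A1_c0_t72 : CovD 1 gA1 [(131713204224, 5726797824), (412316860416, 137438953472), (1374389534720, 1374389534720)] :=
  covD_split 1 (by decide +kernel) A1_c0_t73 A1_c0_t80

theorem A1_c0_t71 : CovD 1 gA1 [(131713204224, 5726797824), (412316860416, 137438953472), (2748779069440, 2748779069440)] :=
  covD_split 2 (by decide +kernel) A1_c0_t72 A1_c0_t87

theorem A1_c0_t70 : CovD 1 gA1 [(131713204224, 5726797824), (412316860416, 137438953472), (5497558138880, 5497558138880)] :=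
  covD_split 2 (by decide +kernel) A1_c0_t71 A1_c0_t88

theorem A1_c0_t48 : CovD 1 gA1 [(125986406400, 11453595648), (412316860416, 137438953472), (5497558138880, 5497558138880)] :=
  covD_split 0 (by decide +kernel) A1_c0_t49 A1_c0_t70

theorem A1_c0 : CovD 1 gA1 [(114532810752, 22907191296), (412316860416, 137438953472), (5497558138880, 5497558138880)] :=
  covD_split 0 (by decide +kernel) A1_c0_t1 A1_c0_t48

theorem B1_c0_t3 : CovD 1 gB1 [(97352417280, 5726797824), (412316860416, 137438953472), (27487895552, 27487895552)] :=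
  covD_split 1 (by decide +kernel) B1_c0_t4 B1_c0_t5

theorem B1_c0_t2 : CovD 1 gB1 [(97352417280, 5726797824), (412316860416, 137438953472), (54975791104, 54975791104)] :=
  covD_split 2 (by decide +kernel) B1_c0_t3 B1_c0_t6

theorem B1_c0_t8 : CovD 1 gB1 [(108806012928, 5726797824), (343597383680, 68719476736), (54975791104, 54975791104)] :=
  covD_split 2 (by decide +kernel) B1_c0_t9 B1_c0_t10

theorem B1_c0_t7 : CovD 1 gB1 [(108806012928, 5726797824), (412316860416, 137438953472), (54975791104, 54975791104)] :=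
  covD_split 1 (by decide +kernel) B1_c0_t8 B1_c0_t11

theorem B1_c0_t1 : CovD 1 gB1 [(103079215104, 11453595648), (412316860416, 137438953472), (54975791104, 54975791104)] :=
  covD_split 0 (by decide +kernel) B1_c0_t2 B1_c0_t7

theorem B1_c0_t13 : CovD 1 gB1 [(125986406400, 11453595648), (343597383680, 68719476736), (54975791104, 54975791104)] :=
  covD_split 0 (by decide +kernel) B1_c0_t14 B1_c0_t15

theorem B1_c0_t16 : CovD 1 gB1 [(125986406400, 11453595648), (481036337152, 68719476736), (54975791104, 54975791104)] :=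
  covD_split 2 (by decide +kernel) B1_c0_t17 B1_c0_t18

theorem B1_c0_t12 : CovD 1 gB1 [(125986406400, 11453595648), (412316860416, 137438953472), (54975791104, 54975791104)] :=
  covD_split 1 (by decide +kernel) B1_c0_t13 B1_c0_t16

theorem B1_c0 : CovD 1 gB1 [(114532810752, 22907191296), (412316860416, 137438953472), (54975791104, 54975791104)] :=
  covD_split 0 (by decide +kernel) B1_c0_t1 B1_c0_t12

theorem D1_c0 : CovD 1 gD1 [(114532810752, 22907191296), (412316860416, 137438953472), (863554764800, 863554764800)] :=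
  covD_split 0 (by decide +kernel) D1_c0_t1 D1_c0_t2

end Pool.Agent.helper14.NR.E8b
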