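import Pool.Agent.helper14.NR.E8b.PN1

/-!
Generated: certificates.
-/

namespace Pool.Agent.helper14.NR.E8b

open Pool.Agent.helper31.IA (Z)
open Pool.Agent.helper31.IX (Op XOps runX Cov CovD cov_split covD_split)
open Pool.Agent.helper31.IC (TD)
open Pool.Agent.helper63.RG (reloc)
open Pool.Agent.helper63.NF hiding TD
open Pool.Agent.helper14.CF (xE covD_E)
open Pool.Agent.helper14.NR (share)

mutual
theorem E1_c0_t5 : CovD 1 gE1 [(97352417280, 5726797824), (343597383680, 68719476736), (215888691200, 215888691200)] :=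
  covD_E kE1_eq (.n 0 (.n 2 (.n 2 (.n 2 (.n 0 (.l 0) (.l 0)) (.l 0)) (.l 0)) (.l 0)) (.n 2 (.n 2 (.n 2 (.n 0 (.l 0) (.l 0)) (.l 0)) (.l 0)) (.l 0)))
    [(97352417280, 5726797824), (343597383680, 68719476736), (215888691200, 215888691200)] rfl (by decide +kernel)
theorem E1_c0_t6 : CovD 1 gE1 [(108806012928, 5726797824), (343597383680, 68719476736), (215888691200, 215888691200)] :=
  covD_E kE1_eq (.n 2 (.n 0 (.n 2 (.n 2 (.n 0 (.l 0) (.l 0)) (.l 0)) (.l 0)) (.n 2 (.n 2 (.l 0) (.l 0)) (.l 0))) (.l 0))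
    [(108806012928, 5726797824), (343597383680, 68719476736), (215888691200, 215888691200)] rfl (by decide +kernel)
end

mutual
theorem E1_c0_t7 : CovD 1 gE1 [(103079215104, 11453595648), (343597383680, 68719476736), (647666073600, 215888691200)] :=
  covD_E kE1_eq (.n 2 (.n 0 (.l 0) (.l 0)) (.l 0))
    [(103079215104, 11453595648), (343597383680, 68719476736), (647666073600, 215888691200)] rfl (by decide +kernel)
theorem E1_c0_t9 : CovD 1 gE1 [(97352417280, 5726797824), (481036337152, 68719476736), (431777382400, 431777382400)] :=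
  covD_E kE1_eq (.n 2 (.n 0 (.n 2 (.n 2 (.n 2 (.l 0) (.l 0)) (.l 0)) (.l 0)) (.n 2 (.n 2 (.n 2 (.l 0) (.l 0)) (.l 0)) (.l 0))) (.n 2 (.l 0) (.l 0)))
    [(97352417280, 5726797824), (481036337152, 68719476736), (431777382400, 431777382400)] rfl (by decide +kernel)
end

mutual
theorem E1_c0_t10 : CovD 1 gE1 [(108806012928, 5726797824), (481036337152, 68719476736), (431777382400, 431777382400)] :=
  covD_E kE1_eq (.n 2 (.n 2 (.n 2 (.n 2 (.n 0 (.l 0) (.l 0)) (.l 0)) (.l 0)) (.l 0)) (.n 2 (.l 0) (.l 0)))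
    [(108806012928, 5726797824), (481036337152, 68719476736), (431777382400, 431777382400)] rfl (by decide +kernel)
theorem E1_c0_t12 : CovD 1 gE1 [(125986406400, 11453595648), (343597383680, 68719476736), (431777382400, 431777382400)] :=
  covD_E kE1_eq (.n 2 (.n 0 (.n 2 (.n 2 (.n 2 (.n 0 (.l 0) (.l 0)) (.l 0)) (.l 0)) (.l 0)) (.n 2 (.n 2 (.n 0 (.l 0) (.l 0)) (.l 0)) (.l 0))) (.n 2 (.n 0 (.l 0) (.l 0)) (.l 0)))
    [(125986406400, 11453595648), (343597383680, 68719476736), (431777382400, 431777382400)] rfl (by decide +kernel)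
end

mutual
theorem E1_c0_t13 : CovD 1 gE1 [(125986406400, 11453595648), (481036337152, 68719476736), (431777382400, 431777382400)] :=
  covD_E kE1_eq (.n 0 (.n 2 (.n 2 (.n 2 (.n 0 (.l 0) (.l 0)) (.l 0)) (.l 0)) (.n 2 (.l 0) (.l 0))) (.n 2 (.n 2 (.n 0 (.n 0 (.l 0) (.l 0)) (.l 0)) (.l 0)) (.n 2 (.l 0) (.l 0))))
    [(125986406400, 11453595648), (481036337152, 68719476736), (431777382400, 431777382400)] rfl (by decide +kernel)
theorem E1_c0_t15 : CovD 1 gE1 [(103079215104, 11453595648), (412316860416, 137438953472), (1295332147200, 431777382400)] :=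
  covD_E kE1_eq (.n 1 (.n 2 (.n 2 (.l 0) (.l 0)) (.n 2 (.l 0) (.l 0))) (.n 2 (.n 0 (.n 2 (.l 0) (.l 0)) (.n 2 (.l 0) (.l 0))) (.n 2 (.l 0) (.l 0))))
    [(103079215104, 11453595648), (412316860416, 137438953472), (1295332147200, 431777382400)] rfl (by decide +kernel)
end

theorem E1_c0_t16 : CovD 1 gE1 [(125986406400, 11453595648), (412316860416, 137438953472), (1295332147200, 431777382400)] :=
  covD_E kE1_eq (.n 1 (.n 2 (.n 2 (.l 0) (.l 0)) (.n 2 (.l 0) (.l 0))) (.n 2 (.n 0 (.n 2 (.l 0) (.l 0)) (.n 2 (.l 0) (.l 0))) (.n 2 (.n 0 (.l 0) (.l 0)) (.l 0))))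
    [(125986406400, 11453595648), (412316860416, 137438953472), (1295332147200, 431777382400)] rfl (by decide +kernel)

theorem E1_c0_t4 : CovD 1 gE1 [(103079215104, 11453595648), (343597383680, 68719476736), (215888691200, 215888691200)] :=
  covD_split 0 (by decide +kernel) E1_c0_t5 E1_c0_t6

theorem E1_c0_t3 : CovD 1 gE1 [(103079215104, 11453595648), (343597383680, 68719476736), (431777382400, 431777382400)] :=
  covD_split 2 (by decide +kernel) E1_c0_t4 E1_c0_t7

theorem E1_c0_t8 : CovD 1 gE1 [(103079215104, 11453595648), (481036337152, 68719476736), (431777382400, 431777382400)] :=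
  covD_split 0 (by decide +kernel) E1_c0_t9 E1_c0_t10

theorem E1_c0_t2 : CovD 1 gE1 [(103079215104, 11453595648), (412316860416, 137438953472), (431777382400, 431777382400)] :=
  covD_split 1 (by decide +kernel) E1_c0_t3 E1_c0_t8

theorem E1_c0_t11 : CovD 1 gE1 [(125986406400, 11453595648), (412316860416, 137438953472), (431777382400, 431777382400)] :=
  covD_split 1 (by decide +kernel) E1_c0_t12 E1_c0_t13

theorem E1_c0_t1 : CovD 1 gE1 [(114532810752, 22907191296), (412316860416, 137438953472), (431777382400, 431777382400)] :=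
  covD_split 0 (by decide +kernel) E1_c0_t2 E1_c0_t11

theorem E1_c0_t14 : CovD 1 gE1 [(114532810752, 22907191296), (412316860416, 137438953472), (1295332147200, 431777382400)] :=
  covD_split 0 (by decide +kernel) E1_c0_t15 E1_c0_t16

theorem E1_c0 : CovD 1 gE1 [(114532810752, 22907191296), (412316860416, 137438953472), (863554764800, 863554764800)] :=
  covD_split 2 (by decide +kernel) E1_c0_t1 E1_c0_t14

end Pool.Agent.helper14.NR.E8b
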