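import Pool.Agent.helper14.NR.E8b.PN4

/-!
Generated: certificates.
-/

namespace Pool.Agent.helper14.NR.E8b

open Pool.Agent.helper31.IA (Z)
open Pool.Agent.helper31.IX (Op XOps runX Cov CovD cov_split covD_split)
open Pool.Agent.helper31.IC (TD)
open Pool.Agent.helper63.RG (reloc)
open Pool.Agent.helper63.NF hiding TD
open Pool.Agent.helper14.CF (xE covD_E)
open Pool.Agent.helper14.NR (share)

mutual
theorem A4_c0_t8 : CovD 1 gA4 [(97352417280, 5726797824), (309237645312, 34359738368), (343597383680, 343597383680)] :=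
  covD_E kA4_eq (.n 2 (.n 0 (.n 2 (.n 2 (.l 0) (.l 0)) (.n 2 (.l 0) (.l 0))) (.n 2 (.n 2 (.l 0) (.l 0)) (.n 2 (.l 0) (.l 0)))) (.n 2 (.n 2 (.n 0 (.l 0) (.l 0)) (.l 0)) (.n 2 (.l 0) (.l 0))))
    [(97352417280, 5726797824), (309237645312, 34359738368), (343597383680, 343597383680)] rfl (by decide +kernel)
theorem A4_c0_t9 : CovD 1 gA4 [(97352417280, 5726797824), (309237645312, 34359738368), (1030792151040, 343597383680)] :=
  covD_E kA4_eq (.n 0 (.n 2 (.n 2 (.l 0) (.l 0)) (.n 2 (.l 0) (.l 0))) (.n 2 (.n 2 (.l 0) (.l 0)) (.n 2 (.l 0) (.l 0))))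
    [(97352417280, 5726797824), (309237645312, 34359738368), (1030792151040, 343597383680)] rfl (by decide +kernel)
end

mutual
theorem A4_c0_t10 : CovD 1 gA4 [(97352417280, 5726797824), (309237645312, 34359738368), (2061584302080, 687194767360)] :=
  covD_E kA4_eq (.n 2 (.n 2 (.n 2 (.n 0 (.l 0) (.l 0)) (.l 0)) (.n 0 (.l 0) (.l 0))) (.n 0 (.n 2 (.l 0) (.l 0)) (.n 2 (.l 0) (.l 0))))
    [(97352417280, 5726797824), (309237645312, 34359738368), (2061584302080, 687194767360)] rfl (by decide +kernel)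
theorem A4_c0_t11 : CovD 1 gA4 [(97352417280, 5726797824), (309237645312, 34359738368), (4123168604160, 1374389534720)] :=
  covD_E kA4_eq (.n 2 (.n 0 (.n 2 (.l 0) (.l 0)) (.n 2 (.l 0) (.l 0))) (.n 2 (.n 2 (.l 0) (.l 0)) (.n 0 (.n 2 (.n 2 (.l 0) (.l 0)) (.n 0 (.l 1) (.l 0))) (.l 0))))
    [(97352417280, 5726797824), (309237645312, 34359738368), (4123168604160, 1374389534720)] rfl (by decide +kernel)
end

mutual
theorem A4_c0_t12 : CovD 1 gA4 [(97352417280, 5726797824), (309237645312, 34359738368), (8246337208320, 2748779069440)] :=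
  covD_E kA4_eq (.n 2 (.n 2 (.n 2 (.n 0 (.l 1) (.n 0 (.l 1) (.l 0))) (.l 1)) (.l 1)) (.l 1))
    [(97352417280, 5726797824), (309237645312, 34359738368), (8246337208320, 2748779069440)] rfl (by decide +kernel)
theorem A4_c0_t16 : CovD 1 gA4 [(97352417280, 5726797824), (377957122048, 34359738368), (687194767360, 687194767360)] :=
  covD_E kA4_eq (.n 2 (.n 2 (.n 2 (.n 2 (.l 0) (.l 0)) (.n 2 (.l 0) (.l 0))) (.n 2 (.n 2 (.l 0) (.l 0)) (.n 0 (.l 0) (.l 0)))) (.n 2 (.n 2 (.n 0 (.l 0) (.l 0)) (.l 0)) (.n 2 (.l 0) (.l 0))))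
    [(97352417280, 5726797824), (377957122048, 34359738368), (687194767360, 687194767360)] rfl (by decide +kernel)
end

mutual
theorem A4_c0_t17 : CovD 1 gA4 [(97352417280, 5726797824), (377957122048, 34359738368), (2061584302080, 687194767360)] :=
  covD_E kA4_eq (.n 2 (.n 0 (.n 2 (.l 0) (.l 0)) (.n 2 (.l 0) (.l 0))) (.n 2 (.l 0) (.l 0)))
    [(97352417280, 5726797824), (377957122048, 34359738368), (2061584302080, 687194767360)] rfl (by decide +kernel)
theorem A4_c0_t18 : CovD 1 gA4 [(97352417280, 5726797824), (377957122048, 34359738368), (4123168604160, 1374389534720)] :=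
  covD_E kA4_eq (.n 0 (.n 2 (.n 2 (.l 0) (.l 0)) (.n 2 (.l 0) (.n 0 (.n 2 (.l 0) (.l 1)) (.l 0)))) (.n 2 (.n 2 (.l 0) (.l 0)) (.n 2 (.l 0) (.l 0))))
    [(97352417280, 5726797824), (377957122048, 34359738368), (4123168604160, 1374389534720)] rfl (by decide +kernel)
end

mutual
theorem A4_c0_t19 : CovD 1 gA4 [(97352417280, 5726797824), (377957122048, 34359738368), (8246337208320, 2748779069440)] :=
  covD_E kA4_eq (.n 2 (.n 2 (.n 2 (.n 0 (.l 1) (.n 0 (.l 0) (.l 0))) (.l 1)) (.l 1)) (.l 1))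
    [(97352417280, 5726797824), (377957122048, 34359738368), (8246337208320, 2748779069440)] rfl (by decide +kernel)
theorem A4_c0_t25 : CovD 1 gA4 [(108806012928, 5726797824), (309237645312, 34359738368), (343597383680, 343597383680)] :=
  covD_E kA4_eq (.n 2 (.n 0 (.n 2 (.n 2 (.l 0) (.l 0)) (.n 2 (.l 0) (.l 0))) (.n 2 (.n 2 (.l 0) (.l 0)) (.n 2 (.l 0) (.l 0)))) (.n 2 (.n 2 (.n 0 (.l 0) (.l 0)) (.l 0)) (.n 1 (.l 0) (.l 0))))
    [(108806012928, 5726797824), (309237645312, 34359738368), (343597383680, 343597383680)] rfl (by decide +kernel)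
end

mutual
theorem A4_c0_t26 : CovD 1 gA4 [(108806012928, 5726797824), (309237645312, 34359738368), (1030792151040, 343597383680)] :=
  covD_E kA4_eq (.n 0 (.n 2 (.n 2 (.l 0) (.l 0)) (.n 2 (.l 0) (.l 0))) (.n 2 (.n 2 (.l 0) (.l 0)) (.n 2 (.l 0) (.l 0))))
    [(108806012928, 5726797824), (309237645312, 34359738368), (1030792151040, 343597383680)] rfl (by decide +kernel)
theorem A4_c0_t27 : CovD 1 gA4 [(108806012928, 5726797824), (309237645312, 34359738368), (2061584302080, 687194767360)] :=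
  covD_E kA4_eq (.n 2 (.n 2 (.n 2 (.n 0 (.l 0) (.l 0)) (.l 0)) (.n 0 (.l 0) (.l 0))) (.n 0 (.n 2 (.l 0) (.l 0)) (.n 2 (.l 0) (.l 0))))
    [(108806012928, 5726797824), (309237645312, 34359738368), (2061584302080, 687194767360)] rfl (by decide +kernel)
end

mutual
theorem A4_c0_t28 : CovD 1 gA4 [(108806012928, 5726797824), (309237645312, 34359738368), (4123168604160, 1374389534720)] :=
  covD_E kA4_eq (.n 0 (.n 2 (.n 2 (.l 0) (.l 0)) (.n 0 (.l 0) (.l 0))) (.n 2 (.n 2 (.l 0) (.l 0)) (.n 0 (.l 0) (.l 0))))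
    [(108806012928, 5726797824), (309237645312, 34359738368), (4123168604160, 1374389534720)] rfl (by decide +kernel)
theorem A4_c0_t29 : CovD 1 gA4 [(108806012928, 5726797824), (309237645312, 34359738368), (8246337208320, 2748779069440)] :=
  covD_E kA4_eq (.n 0 (.n 2 (.n 2 (.n 2 (.l 0) (.l 0)) (.l 1)) (.l 1)) (.n 2 (.n 2 (.l 0) (.l 0)) (.l 1)))
    [(108806012928, 5726797824), (309237645312, 34359738368), (8246337208320, 2748779069440)] rfl (by decide +kernel)
end

mutual
theorem A4_c0_t33 : CovD 1 gA4 [(108806012928, 5726797824), (377957122048, 34359738368), (687194767360, 687194767360)] :=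
  covD_E kA4_eq (.n 2 (.n 2 (.n 2 (.n 2 (.l 0) (.l 0)) (.n 2 (.l 0) (.l 0))) (.n 2 (.n 2 (.l 0) (.l 0)) (.n 0 (.l 0) (.l 0)))) (.n 2 (.n 2 (.n 0 (.l 0) (.l 0)) (.l 0)) (.n 2 (.l 0) (.l 0))))
    [(108806012928, 5726797824), (377957122048, 34359738368), (687194767360, 687194767360)] rfl (by decide +kernel)
theorem A4_c0_t34 : CovD 1 gA4 [(108806012928, 5726797824), (377957122048, 34359738368), (2061584302080, 687194767360)] :=
  covD_E kA4_eq (.n 2 (.n 0 (.n 2 (.l 0) (.l 0)) (.n 2 (.l 0) (.l 0))) (.n 2 (.l 0) (.l 0)))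
    [(108806012928, 5726797824), (377957122048, 34359738368), (2061584302080, 687194767360)] rfl (by decide +kernel)
end

mutual
theorem A4_c0_t35 : CovD 1 gA4 [(108806012928, 5726797824), (377957122048, 34359738368), (4123168604160, 1374389534720)] :=
  covD_E kA4_eq (.n 2 (.n 2 (.n 0 (.l 0) (.l 0)) (.l 0)) (.n 2 (.l 0) (.l 0)))
    [(108806012928, 5726797824), (377957122048, 34359738368), (4123168604160, 1374389534720)] rfl (by decide +kernel)
theorem A4_c0_t36 : CovD 1 gA4 [(108806012928, 5726797824), (377957122048, 34359738368), (8246337208320, 2748779069440)] :=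
  covD_E kA4_eq (.n 2 (.n 2 (.n 2 (.l 0) (.l 0)) (.n 0 (.l 1) (.l 0))) (.n 2 (.l 1) (.l 1)))
    [(108806012928, 5726797824), (377957122048, 34359738368), (8246337208320, 2748779069440)] rfl (by decide +kernel)
end

mutual
theorem A4_c0_t43 : CovD 1 gA4 [(120259608576, 5726797824), (309237645312, 34359738368), (343597383680, 343597383680)] :=
  covD_E kA4_eq (.n 2 (.n 0 (.n 2 (.n 2 (.l 0) (.l 0)) (.n 2 (.l 0) (.l 0))) (.n 2 (.n 2 (.l 0) (.l 0)) (.n 2 (.l 0) (.l 0)))) (.n 2 (.n 2 (.l 0) (.l 0)) (.n 1 (.l 0) (.l 0))))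
    [(120259608576, 5726797824), (309237645312, 34359738368), (343597383680, 343597383680)] rfl (by decide +kernel)
theorem A4_c0_t44 : CovD 1 gA4 [(120259608576, 5726797824), (309237645312, 34359738368), (1030792151040, 343597383680)] :=
  covD_E kA4_eq (.n 0 (.n 2 (.n 2 (.l 0) (.l 0)) (.n 2 (.l 0) (.l 0))) (.n 2 (.n 2 (.l 0) (.l 0)) (.n 2 (.l 0) (.l 0))))
    [(120259608576, 5726797824), (309237645312, 34359738368), (1030792151040, 343597383680)] rfl (by decide +kernel)
end

mutual
theorem A4_c0_t45 : CovD 1 gA4 [(120259608576, 5726797824), (309237645312, 34359738368), (2061584302080, 687194767360)] :=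
  covD_E kA4_eq (.n 1 (.n 2 (.n 2 (.n 0 (.l 0) (.l 0)) (.l 0)) (.n 2 (.l 0) (.l 0))) (.n 2 (.n 2 (.l 0) (.l 0)) (.n 0 (.l 0) (.l 0))))
    [(120259608576, 5726797824), (309237645312, 34359738368), (2061584302080, 687194767360)] rfl (by decide +kernel)
theorem A4_c0_t46 : CovD 1 gA4 [(120259608576, 5726797824), (309237645312, 34359738368), (4123168604160, 1374389534720)] :=
  covD_E kA4_eq (.n 2 (.n 0 (.n 2 (.l 0) (.l 0)) (.n 2 (.l 0) (.l 0))) (.n 2 (.n 0 (.l 0) (.l 0)) (.l 0)))
    [(120259608576, 5726797824), (309237645312, 34359738368), (4123168604160, 1374389534720)] rfl (by decide +kernel)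
end

mutual
theorem A4_c0_t47 : CovD 1 gA4 [(120259608576, 5726797824), (309237645312, 34359738368), (8246337208320, 2748779069440)] :=
  covD_E kA4_eq (.n 2 (.n 0 (.n 2 (.l 0) (.l 0)) (.n 2 (.l 0) (.l 0))) (.n 2 (.n 0 (.l 0) (.l 0)) (.l 0)))
    [(120259608576, 5726797824), (309237645312, 34359738368), (8246337208320, 2748779069440)] rfl (by decide +kernel)
theorem A4_c0_t51 : CovD 1 gA4 [(120259608576, 5726797824), (377957122048, 34359738368), (687194767360, 687194767360)] :=
  covD_E kA4_eq (.n 2 (.n 2 (.n 2 (.n 2 (.l 0) (.l 0)) (.n 2 (.l 0) (.l 0))) (.n 2 (.n 2 (.l 0) (.l 0)) (.n 0 (.l 0) (.l 0)))) (.n 2 (.n 2 (.n 0 (.l 0) (.l 0)) (.l 0)) (.n 2 (.l 0) (.l 0))))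
    [(120259608576, 5726797824), (377957122048, 34359738368), (687194767360, 687194767360)] rfl (by decide +kernel)
end

mutual
theorem A4_c0_t52 : CovD 1 gA4 [(120259608576, 5726797824), (377957122048, 34359738368), (2061584302080, 687194767360)] :=
  covD_E kA4_eq (.n 2 (.n 2 (.n 0 (.l 0) (.l 0)) (.l 0)) (.n 2 (.l 0) (.l 0)))
    [(120259608576, 5726797824), (377957122048, 34359738368), (2061584302080, 687194767360)] rfl (by decide +kernel)
theorem A4_c0_t53 : CovD 1 gA4 [(120259608576, 5726797824), (377957122048, 34359738368), (4123168604160, 1374389534720)] :=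
  covD_E kA4_eq (.n 2 (.n 2 (.n 0 (.l 0) (.l 0)) (.l 0)) (.n 2 (.l 0) (.l 0)))
    [(120259608576, 5726797824), (377957122048, 34359738368), (4123168604160, 1374389534720)] rfl (by decide +kernel)
end

mutual
theorem A4_c0_t54 : CovD 1 gA4 [(120259608576, 5726797824), (377957122048, 34359738368), (8246337208320, 2748779069440)] :=
  covD_E kA4_eq (.n 2 (.n 2 (.n 0 (.l 0) (.l 0)) (.l 0)) (.n 0 (.l 0) (.l 0)))
    [(120259608576, 5726797824), (377957122048, 34359738368), (8246337208320, 2748779069440)] rfl (by decide +kernel)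
theorem A4_c0_t60 : CovD 1 gA4 [(131713204224, 5726797824), (309237645312, 34359738368), (343597383680, 343597383680)] :=
  covD_E kA4_eq (.n 2 (.n 2 (.n 2 (.l 0) (.n 0 (.l 0) (.l 0))) (.n 0 (.n 2 (.l 0) (.l 0)) (.n 2 (.l 0) (.l 0)))) (.n 2 (.n 2 (.l 0) (.l 0)) (.n 1 (.l 0) (.l 0))))
    [(131713204224, 5726797824), (309237645312, 34359738368), (343597383680, 343597383680)] rfl (by decide +kernel)
end

mutual
theorem A4_c0_t61 : CovD 1 gA4 [(131713204224, 5726797824), (309237645312, 34359738368), (1030792151040, 343597383680)] :=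
  covD_E kA4_eq (.n 0 (.n 2 (.n 2 (.l 0) (.l 0)) (.n 2 (.l 0) (.l 0))) (.n 2 (.n 2 (.l 0) (.l 0)) (.n 2 (.l 0) (.l 0))))
    [(131713204224, 5726797824), (309237645312, 34359738368), (1030792151040, 343597383680)] rfl (by decide +kernel)
theorem A4_c0_t62 : CovD 1 gA4 [(131713204224, 5726797824), (309237645312, 34359738368), (2061584302080, 687194767360)] :=
  covD_E kA4_eq (.n 1 (.n 2 (.n 2 (.n 0 (.l 0) (.l 0)) (.l 0)) (.n 2 (.l 0) (.l 0))) (.n 2 (.n 2 (.l 0) (.l 0)) (.n 0 (.l 0) (.l 0))))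
    [(131713204224, 5726797824), (309237645312, 34359738368), (2061584302080, 687194767360)] rfl (by decide +kernel)
end

mutual
theorem A4_c0_t63 : CovD 1 gA4 [(131713204224, 5726797824), (309237645312, 34359738368), (4123168604160, 1374389534720)] :=
  covD_E kA4_eq (.n 2 (.n 0 (.n 2 (.l 0) (.l 0)) (.n 2 (.l 0) (.l 0))) (.n 2 (.n 0 (.l 0) (.l 0)) (.l 0)))
    [(131713204224, 5726797824), (309237645312, 34359738368), (4123168604160, 1374389534720)] rfl (by decide +kernel)
theorem A4_c0_t64 : CovD 1 gA4 [(131713204224, 5726797824), (309237645312, 34359738368), (8246337208320, 2748779069440)] :=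
  covD_E kA4_eq (.n 2 (.n 0 (.n 2 (.l 0) (.l 0)) (.n 2 (.l 0) (.l 0))) (.n 2 (.l 0) (.l 0)))
    [(131713204224, 5726797824), (309237645312, 34359738368), (8246337208320, 2748779069440)] rfl (by decide +kernel)
end

mutual
theorem A4_c0_t68 : CovD 1 gA4 [(131713204224, 5726797824), (377957122048, 34359738368), (687194767360, 687194767360)] :=
  covD_E kA4_eq (.n 2 (.n 2 (.n 2 (.n 2 (.l 0) (.l 0)) (.n 2 (.l 0) (.l 0))) (.n 2 (.n 2 (.l 0) (.l 0)) (.n 0 (.l 0) (.l 0)))) (.n 2 (.n 2 (.n 0 (.l 0) (.l 0)) (.l 0)) (.n 2 (.l 0) (.l 0))))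
    [(131713204224, 5726797824), (377957122048, 34359738368), (687194767360, 687194767360)] rfl (by decide +kernel)
theorem A4_c0_t69 : CovD 1 gA4 [(131713204224, 5726797824), (377957122048, 34359738368), (2061584302080, 687194767360)] :=
  covD_E kA4_eq (.n 2 (.n 2 (.n 0 (.l 0) (.l 0)) (.l 0)) (.n 2 (.l 0) (.l 0)))
    [(131713204224, 5726797824), (377957122048, 34359738368), (2061584302080, 687194767360)] rfl (by decide +kernel)
end

mutual
theorem A4_c0_t70 : CovD 1 gA4 [(131713204224, 5726797824), (377957122048, 34359738368), (4123168604160, 1374389534720)] :=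
  covD_E kA4_eq (.n 2 (.n 2 (.n 0 (.l 0) (.l 0)) (.l 0)) (.n 2 (.l 0) (.l 0)))
    [(131713204224, 5726797824), (377957122048, 34359738368), (4123168604160, 1374389534720)] rfl (by decide +kernel)
theorem A4_c0_t71 : CovD 1 gA4 [(131713204224, 5726797824), (377957122048, 34359738368), (8246337208320, 2748779069440)] :=
  covD_E kA4_eq (.n 2 (.n 2 (.n 0 (.l 0) (.l 0)) (.l 0)) (.n 0 (.l 0) (.l 0)))
    [(131713204224, 5726797824), (377957122048, 34359738368), (8246337208320, 2748779069440)] rfl (by decide +kernel)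
end

mutual
theorem A4_c0_t78 : CovD 1 gA4 [(97352417280, 5726797824), (446676598784, 34359738368), (687194767360, 687194767360)] :=
  covD_E kA4_eq (.n 2 (.n 2 (.n 2 (.n 2 (.l 0) (.l 0)) (.n 2 (.l 0) (.l 0))) (.n 2 (.n 2 (.l 0) (.l 0)) (.n 0 (.l 0) (.l 0)))) (.n 2 (.n 2 (.l 0) (.l 0)) (.n 0 (.l 0) (.l 0))))
    [(97352417280, 5726797824), (446676598784, 34359738368), (687194767360, 687194767360)] rfl (by decide +kernel)
theorem A4_c0_t79 : CovD 1 gA4 [(97352417280, 5726797824), (446676598784, 34359738368), (2061584302080, 687194767360)] :=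
  covD_E kA4_eq (.n 2 (.n 2 (.n 0 (.l 0) (.l 0)) (.l 0)) (.n 2 (.l 0) (.l 0)))
    [(97352417280, 5726797824), (446676598784, 34359738368), (2061584302080, 687194767360)] rfl (by decide +kernel)
end

mutual
theorem A4_c0_t80 : CovD 1 gA4 [(97352417280, 5726797824), (515396075520, 34359738368), (1374389534720, 1374389534720)] :=
  covD_E kA4_eq (.n 2 (.n 2 (.n 2 (.n 2 (.n 2 (.l 0) (.l 0)) (.n 2 (.l 0) (.l 0))) (.n 0 (.n 2 (.l 0) (.l 0)) (.n 2 (.l 0) (.l 0)))) (.n 2 (.n 2 (.l 0) (.l 0)) (.n 0 (.l 0) (.l 0)))) (.n 2 (.n 2 (.l 0) (.l 0)) (.n 0 (.l 0) (.l 0))))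
    [(97352417280, 5726797824), (515396075520, 34359738368), (1374389534720, 1374389534720)] rfl (by decide +kernel)
theorem A4_c0_t81 : CovD 1 gA4 [(97352417280, 5726797824), (481036337152, 68719476736), (4123168604160, 1374389534720)] :=
  covD_E kA4_eq (.n 2 (.n 1 (.n 2 (.n 0 (.l 0) (.l 0)) (.l 0)) (.n 2 (.l 0) (.l 0))) (.n 2 (.n 1 (.l 0) (.l 0)) (.n 0 (.n 2 (.l 0) (.n 1 (.l 0) (.l 0))) (.l 0))))
    [(97352417280, 5726797824), (481036337152, 68719476736), (4123168604160, 1374389534720)] rfl (by decide +kernel)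
end

mutual
theorem A4_c0_t82 : CovD 1 gA4 [(97352417280, 5726797824), (481036337152, 68719476736), (8246337208320, 2748779069440)] :=
  covD_E kA4_eq (.n 0 (.n 2 (.n 2 (.n 2 (.n 0 (.l 1) (.n 1 (.l 1) (.l 0))) (.l 1)) (.l 1)) (.l 1)) (.n 2 (.n 2 (.n 2 (.n 0 (.l 0) (.l 0)) (.l 1)) (.l 1)) (.l 1)))
    [(97352417280, 5726797824), (481036337152, 68719476736), (8246337208320, 2748779069440)] rfl (by decide +kernel)
theorem A4_c0_t86 : CovD 1 gA4 [(108806012928, 5726797824), (446676598784, 34359738368), (1374389534720, 1374389534720)] :=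
  covD_E kA4_eq (.n 2 (.n 2 (.n 2 (.n 2 (.n 2 (.l 0) (.l 0)) (.n 2 (.l 0) (.l 0))) (.n 2 (.n 2 (.l 0) (.l 0)) (.n 0 (.l 0) (.l 0)))) (.n 2 (.n 2 (.l 0) (.l 0)) (.n 0 (.l 0) (.l 0)))) (.n 2 (.n 2 (.l 0) (.l 0)) (.n 0 (.l 0) (.l 0))))
    [(108806012928, 5726797824), (446676598784, 34359738368), (1374389534720, 1374389534720)] rfl (by decide +kernel)
end

mutual
theorem A4_c0_t87 : CovD 1 gA4 [(108806012928, 5726797824), (446676598784, 34359738368), (4123168604160, 1374389534720)] :=
  covD_E kA4_eq (.n 2 (.n 2 (.n 0 (.l 0) (.l 0)) (.l 0)) (.n 0 (.l 0) (.l 0)))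
    [(108806012928, 5726797824), (446676598784, 34359738368), (4123168604160, 1374389534720)] rfl (by decide +kernel)
theorem A4_c0_t89 : CovD 1 gA4 [(108806012928, 5726797824), (515396075520, 34359738368), (1374389534720, 1374389534720)] :=
  covD_E kA4_eq (.n 2 (.n 2 (.n 2 (.n 2 (.n 2 (.l 0) (.l 0)) (.n 2 (.l 0) (.l 0))) (.n 0 (.n 2 (.l 0) (.l 0)) (.n 2 (.l 0) (.l 0)))) (.n 2 (.n 2 (.l 0) (.l 0)) (.n 0 (.l 0) (.l 0)))) (.n 2 (.n 2 (.l 0) (.l 0)) (.n 0 (.l 0) (.l 0))))
    [(108806012928, 5726797824), (515396075520, 34359738368), (1374389534720, 1374389534720)] rfl (by decide +kernel)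
end

mutual
theorem A4_c0_t90 : CovD 1 gA4 [(108806012928, 5726797824), (515396075520, 34359738368), (4123168604160, 1374389534720)] :=
  covD_E kA4_eq (.n 2 (.n 2 (.l 0) (.l 0)) (.n 0 (.l 0) (.l 0)))
    [(108806012928, 5726797824), (515396075520, 34359738368), (4123168604160, 1374389534720)] rfl (by decide +kernel)
theorem A4_c0_t91 : CovD 1 gA4 [(108806012928, 5726797824), (481036337152, 68719476736), (8246337208320, 2748779069440)] :=
  covD_E kA4_eq (.n 2 (.n 1 (.n 2 (.l 0) (.n 0 (.l 1) (.l 0))) (.n 2 (.l 0) (.l 0))) (.n 0 (.l 1) (.n 1 (.l 0) (.l 0))))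
    [(108806012928, 5726797824), (481036337152, 68719476736), (8246337208320, 2748779069440)] rfl (by decide +kernel)
end

mutual
theorem A4_c0_t96 : CovD 1 gA4 [(120259608576, 5726797824), (446676598784, 34359738368), (1374389534720, 1374389534720)] :=
  covD_E kA4_eq (.n 2 (.n 2 (.n 2 (.n 2 (.n 2 (.l 0) (.l 0)) (.n 2 (.l 0) (.l 0))) (.n 1 (.n 2 (.l 0) (.l 0)) (.n 2 (.l 0) (.l 0)))) (.n 2 (.n 2 (.l 0) (.l 0)) (.n 0 (.l 0) (.l 0)))) (.n 2 (.n 2 (.l 0) (.l 0)) (.n 0 (.l 0) (.l 0))))
    [(120259608576, 5726797824), (446676598784, 34359738368), (1374389534720, 1374389534720)] rfl (by decide +kernel)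
theorem A4_c0_t97 : CovD 1 gA4 [(120259608576, 5726797824), (446676598784, 34359738368), (4123168604160, 1374389534720)] :=
  covD_E kA4_eq (.n 2 (.n 2 (.l 0) (.l 0)) (.n 0 (.l 0) (.l 0)))
    [(120259608576, 5726797824), (446676598784, 34359738368), (4123168604160, 1374389534720)] rfl (by decide +kernel)
end

mutual
theorem A4_c0_t98 : CovD 1 gA4 [(120259608576, 5726797824), (446676598784, 34359738368), (8246337208320, 2748779069440)] :=
  covD_E kA4_eq (.n 2 (.n 2 (.l 0) (.l 0)) (.n 0 (.l 0) (.l 0)))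
    [(120259608576, 5726797824), (446676598784, 34359738368), (8246337208320, 2748779069440)] rfl (by decide +kernel)
theorem A4_c0_t101 : CovD 1 gA4 [(120259608576, 5726797824), (515396075520, 34359738368), (1374389534720, 1374389534720)] :=
  covD_E kA4_eq (.n 2 (.n 2 (.n 1 (.n 2 (.n 2 (.l 0) (.l 0)) (.n 2 (.l 0) (.l 0))) (.n 2 (.n 2 (.l 0) (.l 0)) (.n 2 (.l 0) (.l 0)))) (.n 2 (.n 2 (.l 0) (.l 0)) (.n 0 (.l 0) (.l 0)))) (.n 2 (.n 2 (.l 0) (.l 0)) (.n 0 (.l 0) (.l 0))))
    [(120259608576, 5726797824), (515396075520, 34359738368), (1374389534720, 1374389534720)] rfl (by decide +kernel)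
end

mutual
theorem A4_c0_t102 : CovD 1 gA4 [(120259608576, 5726797824), (515396075520, 34359738368), (4123168604160, 1374389534720)] :=
  covD_E kA4_eq (.n 2 (.n 2 (.l 0) (.l 0)) (.n 0 (.l 0) (.l 0)))
    [(120259608576, 5726797824), (515396075520, 34359738368), (4123168604160, 1374389534720)] rfl (by decide +kernel)
theorem A4_c0_t103 : CovD 1 gA4 [(120259608576, 5726797824), (515396075520, 34359738368), (8246337208320, 2748779069440)] :=
  covD_E kA4_eq (.n 2 (.n 2 (.l 0) (.l 0)) (.n 0 (.l 0) (.l 0)))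
    [(120259608576, 5726797824), (515396075520, 34359738368), (8246337208320, 2748779069440)] rfl (by decide +kernel)
end

mutual
theorem A4_c0_t107 : CovD 1 gA4 [(131713204224, 5726797824), (446676598784, 34359738368), (1374389534720, 1374389534720)] :=
  covD_E kA4_eq (.n 2 (.n 2 (.n 2 (.n 2 (.n 2 (.l 0) (.l 0)) (.n 2 (.l 0) (.l 0))) (.n 1 (.n 2 (.l 0) (.l 0)) (.n 2 (.l 0) (.l 0)))) (.n 2 (.n 2 (.l 0) (.l 0)) (.n 0 (.l 0) (.l 0)))) (.n 2 (.n 2 (.l 0) (.l 0)) (.n 0 (.l 0) (.l 0))))
    [(131713204224, 5726797824), (446676598784, 34359738368), (1374389534720, 1374389534720)] rfl (by decide +kernel)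
theorem A4_c0_t108 : CovD 1 gA4 [(131713204224, 5726797824), (446676598784, 34359738368), (4123168604160, 1374389534720)] :=
  covD_E kA4_eq (.n 2 (.n 2 (.l 0) (.l 0)) (.n 0 (.l 0) (.l 0)))
    [(131713204224, 5726797824), (446676598784, 34359738368), (4123168604160, 1374389534720)] rfl (by decide +kernel)
end

mutual
theorem A4_c0_t109 : CovD 1 gA4 [(131713204224, 5726797824), (446676598784, 34359738368), (8246337208320, 2748779069440)] :=
  covD_E kA4_eq (.n 2 (.n 2 (.l 0) (.l 0)) (.n 0 (.l 0) (.l 0)))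
    [(131713204224, 5726797824), (446676598784, 34359738368), (8246337208320, 2748779069440)] rfl (by decide +kernel)
theorem A4_c0_t112 : CovD 1 gA4 [(131713204224, 5726797824), (515396075520, 34359738368), (1374389534720, 1374389534720)] :=
  covD_E kA4_eq (.n 2 (.n 2 (.n 1 (.n 2 (.n 2 (.l 0) (.l 0)) (.n 2 (.l 0) (.l 0))) (.n 2 (.n 2 (.l 0) (.l 0)) (.n 2 (.l 0) (.l 0)))) (.n 2 (.n 2 (.l 0) (.l 0)) (.n 0 (.l 0) (.l 0)))) (.n 2 (.n 2 (.l 0) (.l 0)) (.n 0 (.l 0) (.l 0))))
    [(131713204224, 5726797824), (515396075520, 34359738368), (1374389534720, 1374389534720)] rfl (by decide +kernel)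
end

mutual
theorem A4_c0_t113 : CovD 1 gA4 [(131713204224, 5726797824), (515396075520, 34359738368), (4123168604160, 1374389534720)] :=
  covD_E kA4_eq (.n 2 (.n 2 (.l 0) (.l 0)) (.n 0 (.l 0) (.l 0)))
    [(131713204224, 5726797824), (515396075520, 34359738368), (4123168604160, 1374389534720)] rfl (by decide +kernel)
theorem A4_c0_t114 : CovD 1 gA4 [(131713204224, 5726797824), (515396075520, 34359738368), (8246337208320, 2748779069440)] :=
  covD_E kA4_eq (.n 2 (.n 2 (.l 0) (.l 0)) (.n 0 (.l 0) (.l 0)))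
    [(131713204224, 5726797824), (515396075520, 34359738368), (8246337208320, 2748779069440)] rfl (by decide +kernel)
end

mutual
theorem B4_c0_t1 : CovD 1 gB4 [(103079215104, 11453595648), (412316860416, 137438953472), (54975791104, 54975791104)] :=
  covD_E kB4_eq (.n 0 (.n 1 (.n 2 (.l 1) (.n 0 (.l 1) (.l 1))) (.n 2 (.l 1) (.l 1))) (.n 1 (.n 2 (.n 0 (.l 1) (.l 1)) (.n 2 (.l 1) (.l 1))) (.n 2 (.n 0 (.l 1) (.l 1)) (.n 2 (.l 1) (.l 1)))))
    [(103079215104, 11453595648), (412316860416, 137438953472), (54975791104, 54975791104)] rfl (by decide +kernel)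
theorem B4_c0_t3 : CovD 1 gB4 [(120259608576, 5726797824), (412316860416, 137438953472), (54975791104, 54975791104)] :=
  covD_E kB4_eq (.n 1 (.n 1 (.n 2 (.n 0 (.l 1) (.l 0)) (.n 2 (.l 0) (.l 0))) (.n 0 (.n 2 (.l 1) (.l 0)) (.n 2 (.l 0) (.l 0)))) (.n 1 (.n 2 (.l 0) (.l 0)) (.n 2 (.l 0) (.l 0))))
    [(120259608576, 5726797824), (412316860416, 137438953472), (54975791104, 54975791104)] rfl (by decide +kernel)
end

mutual
theorem B4_c0_t4 : CovD 1 gB4 [(131713204224, 5726797824), (412316860416, 137438953472), (54975791104, 54975791104)] :=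
  covD_E kB4_eq (.n 1 (.n 1 (.n 2 (.l 0) (.n 0 (.l 0) (.l 0))) (.n 2 (.l 0) (.l 0))) (.n 1 (.n 2 (.l 0) (.l 0)) (.n 2 (.l 0) (.l 0))))
    [(131713204224, 5726797824), (412316860416, 137438953472), (54975791104, 54975791104)] rfl (by decide +kernel)
theorem D4_c0_t2 : CovD 1 gD4 [(103079215104, 11453595648), (343597383680, 68719476736), (863554764800, 863554764800)] :=
  covD_E kD4_eq (.n 2 (.n 2 (.n 0 (.l 0) (.l 0)) (.n 2 (.l 0) (.l 0))) (.n 2 (.n 2 (.l 0) (.n 0 (.l 0) (.l 0))) (.n 0 (.n 2 (.l 0) (.l 0)) (.n 2 (.l 0) (.l 0)))))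
    [(103079215104, 11453595648), (343597383680, 68719476736), (863554764800, 863554764800)] rfl (by decide +kernel)
end

mutual
theorem D4_c0_t3 : CovD 1 gD4 [(103079215104, 11453595648), (481036337152, 68719476736), (863554764800, 863554764800)] :=
  covD_E kD4_eq (.n 2 (.n 0 (.n 2 (.l 0) (.l 0)) (.n 2 (.l 0) (.l 0))) (.n 2 (.n 2 (.l 0) (.l 0)) (.n 2 (.l 0) (.n 0 (.l 0) (.l 0)))))
    [(103079215104, 11453595648), (481036337152, 68719476736), (863554764800, 863554764800)] rfl (by decide +kernel)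
theorem D4_c0_t5 : CovD 1 gD4 [(125986406400, 11453595648), (343597383680, 68719476736), (863554764800, 863554764800)] :=
  covD_E kD4_eq (.n 2 (.n 2 (.n 2 (.l 0) (.l 0)) (.n 2 (.l 0) (.n 0 (.l 0) (.l 0)))) (.n 0 (.n 2 (.n 2 (.l 0) (.l 0)) (.n 2 (.l 0) (.n 0 (.l 0) (.l 0)))) (.n 2 (.n 2 (.l 0) (.l 0)) (.n 2 (.l 1) (.l 1)))))
    [(125986406400, 11453595648), (343597383680, 68719476736), (863554764800, 863554764800)] rfl (by decide +kernel)
end

theorem D4_c0_t6 : CovD 1 gD4 [(125986406400, 11453595648), (481036337152, 68719476736), (863554764800, 863554764800)] :=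
  covD_E kD4_eq (.n 2 (.n 2 (.n 0 (.l 0) (.l 0)) (.n 2 (.l 0) (.l 0))) (.n 2 (.n 2 (.l 0) (.n 0 (.l 0) (.l 0))) (.n 0 (.n 2 (.l 0) (.l 0)) (.n 0 (.l 1) (.l 1)))))
    [(125986406400, 11453595648), (481036337152, 68719476736), (863554764800, 863554764800)] rfl (by decide +kernel)

theorem A4_c0_t7 : CovD 1 gA4 [(97352417280, 5726797824), (309237645312, 34359738368), (687194767360, 687194767360)] :=
  covD_split 2 (by decide +kernel) A4_c0_t8 A4_c0_t9

theorem A4_c0_t6 : CovD 1 gA4 [(97352417280, 5726797824), (309237645312, 34359738368), (1374389534720, 1374389534720)] :=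
  covD_split 2 (by decide +kernel) A4_c0_t7 A4_c0_t10

theorem A4_c0_t5 : CovD 1 gA4 [(97352417280, 5726797824), (309237645312, 34359738368), (2748779069440, 2748779069440)] :=
  covD_split 2 (by decide +kernel) A4_c0_t6 A4_c0_t11

theorem A4_c0_t4 : CovD 1 gA4 [(97352417280, 5726797824), (309237645312, 34359738368), (5497558138880, 5497558138880)] :=
  covD_split 2 (by decide +kernel) A4_c0_t5 A4_c0_t12

theorem A4_c0_t15 : CovD 1 gA4 [(97352417280, 5726797824), (377957122048, 34359738368), (1374389534720, 1374389534720)] :=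
  covD_split 2 (by decide +kernel) A4_c0_t16 A4_c0_t17

theorem A4_c0_t14 : CovD 1 gA4 [(97352417280, 5726797824), (377957122048, 34359738368), (2748779069440, 2748779069440)] :=
  covD_split 2 (by decide +kernel) A4_c0_t15 A4_c0_t18

theorem A4_c0_t13 : CovD 1 gA4 [(97352417280, 5726797824), (377957122048, 34359738368), (5497558138880, 5497558138880)] :=
  covD_split 2 (by decide +kernel) A4_c0_t14 A4_c0_t19

theorem A4_c0_t3 : CovD 1 gA4 [(97352417280, 5726797824), (343597383680, 68719476736), (5497558138880, 5497558138880)] :=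
  covD_split 1 (by decide +kernel) A4_c0_t4 A4_c0_t13

theorem A4_c0_t24 : CovD 1 gA4 [(108806012928, 5726797824), (309237645312, 34359738368), (687194767360, 687194767360)] :=
  covD_split 2 (by decide +kernel) A4_c0_t25 A4_c0_t26

theorem A4_c0_t23 : CovD 1 gA4 [(108806012928, 5726797824), (309237645312, 34359738368), (1374389534720, 1374389534720)] :=
  covD_split 2 (by decide +kernel) A4_c0_t24 A4_c0_t27

theorem A4_c0_t22 : CovD 1 gA4 [(108806012928, 5726797824), (309237645312, 34359738368), (2748779069440, 2748779069440)] :=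
  covD_split 2 (by decide +kernel) A4_c0_t23 A4_c0_t28

theorem A4_c0_t21 : CovD 1 gA4 [(108806012928, 5726797824), (309237645312, 34359738368), (5497558138880, 5497558138880)] :=
  covD_split 2 (by decide +kernel) A4_c0_t22 A4_c0_t29

theorem A4_c0_t32 : CovD 1 gA4 [(108806012928, 5726797824), (377957122048, 34359738368), (1374389534720, 1374389534720)] :=
  covD_split 2 (by decide +kernel) A4_c0_t33 A4_c0_t34

theorem A4_c0_t31 : CovD 1 gA4 [(108806012928, 5726797824), (377957122048, 34359738368), (2748779069440, 2748779069440)] :=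
  covD_split 2 (by decide +kernel) A4_c0_t32 A4_c0_t35

theorem A4_c0_t30 : CovD 1 gA4 [(108806012928, 5726797824), (377957122048, 34359738368), (5497558138880, 5497558138880)] :=
  covD_split 2 (by decide +kernel) A4_c0_t31 A4_c0_t36

theorem A4_c0_t20 : CovD 1 gA4 [(108806012928, 5726797824), (343597383680, 68719476736), (5497558138880, 5497558138880)] :=
  covD_split 1 (by decide +kernel) A4_c0_t21 A4_c0_t30

theorem A4_c0_t2 : CovD 1 gA4 [(103079215104, 11453595648), (343597383680, 68719476736), (5497558138880, 5497558138880)] :=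
  covD_split 0 (by decide +kernel) A4_c0_t3 A4_c0_t20

theorem A4_c0_t42 : CovD 1 gA4 [(120259608576, 5726797824), (309237645312, 34359738368), (687194767360, 687194767360)] :=
  covD_split 2 (by decide +kernel) A4_c0_t43 A4_c0_t44

theorem A4_c0_t41 : CovD 1 gA4 [(120259608576, 5726797824), (309237645312, 34359738368), (1374389534720, 1374389534720)] :=
  covD_split 2 (by decide +kernel) A4_c0_t42 A4_c0_t45

theorem A4_c0_t40 : CovD 1 gA4 [(120259608576, 5726797824), (309237645312, 34359738368), (2748779069440, 2748779069440)] :=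
  covD_split 2 (by decide +kernel) A4_c0_t41 A4_c0_t46

theorem A4_c0_t39 : CovD 1 gA4 [(120259608576, 5726797824), (309237645312, 34359738368), (5497558138880, 5497558138880)] :=
  covD_split 2 (by decide +kernel) A4_c0_t40 A4_c0_t47

theorem A4_c0_t50 : CovD 1 gA4 [(120259608576, 5726797824), (377957122048, 34359738368), (1374389534720, 1374389534720)] :=
  covD_split 2 (by decide +kernel) A4_c0_t51 A4_c0_t52

theorem A4_c0_t49 : CovD 1 gA4 [(120259608576, 5726797824), (377957122048, 34359738368), (2748779069440, 2748779069440)] :=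
  covD_split 2 (by decide +kernel) A4_c0_t50 A4_c0_t53

theorem A4_c0_t48 : CovD 1 gA4 [(120259608576, 5726797824), (377957122048, 34359738368), (5497558138880, 5497558138880)] :=
  covD_split 2 (by decide +kernel) A4_c0_t49 A4_c0_t54

theorem A4_c0_t38 : CovD 1 gA4 [(120259608576, 5726797824), (343597383680, 68719476736), (5497558138880, 5497558138880)] :=
  covD_split 1 (by decide +kernel) A4_c0_t39 A4_c0_t48

theorem A4_c0_t59 : CovD 1 gA4 [(131713204224, 5726797824), (309237645312, 34359738368), (687194767360, 687194767360)] :=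
  covD_split 2 (by decide +kernel) A4_c0_t60 A4_c0_t61

theorem A4_c0_t58 : CovD 1 gA4 [(131713204224, 5726797824), (309237645312, 34359738368), (1374389534720, 1374389534720)] :=
  covD_split 2 (by decide +kernel) A4_c0_t59 A4_c0_t62

theorem A4_c0_t57 : CovD 1 gA4 [(131713204224, 5726797824), (309237645312, 34359738368), (2748779069440, 2748779069440)] :=
  covD_split 2 (by decide +kernel) A4_c0_t58 A4_c0_t63

theorem A4_c0_t56 : CovD 1 gA4 [(131713204224, 5726797824), (309237645312, 34359738368), (5497558138880, 5497558138880)] :=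
  covD_split 2 (by decide +kernel) A4_c0_t57 A4_c0_t64

theorem A4_c0_t67 : CovD 1 gA4 [(131713204224, 5726797824), (377957122048, 34359738368), (1374389534720, 1374389534720)] :=
  covD_split 2 (by decide +kernel) A4_c0_t68 A4_c0_t69

theorem A4_c0_t66 : CovD 1 gA4 [(131713204224, 5726797824), (377957122048, 34359738368), (2748779069440, 2748779069440)] :=
  covD_split 2 (by decide +kernel) A4_c0_t67 A4_c0_t70

theorem A4_c0_t65 : CovD 1 gA4 [(131713204224, 5726797824), (377957122048, 34359738368), (5497558138880, 5497558138880)] :=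
  covD_split 2 (by decide +kernel) A4_c0_t66 A4_c0_t71

theorem A4_c0_t55 : CovD 1 gA4 [(131713204224, 5726797824), (343597383680, 68719476736), (5497558138880, 5497558138880)] :=
  covD_split 1 (by decide +kernel) A4_c0_t56 A4_c0_t65

theorem A4_c0_t37 : CovD 1 gA4 [(125986406400, 11453595648), (343597383680, 68719476736), (5497558138880, 5497558138880)] :=
  covD_split 0 (by decide +kernel) A4_c0_t38 A4_c0_t55

theorem A4_c0_t1 : CovD 1 gA4 [(114532810752, 22907191296), (343597383680, 68719476736), (5497558138880, 5497558138880)] :=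
  covD_split 0 (by decide +kernel) A4_c0_t2 A4_c0_t37

theorem A4_c0_t77 : CovD 1 gA4 [(97352417280, 5726797824), (446676598784, 34359738368), (1374389534720, 1374389534720)] :=
  covD_split 2 (by decide +kernel) A4_c0_t78 A4_c0_t79

theorem A4_c0_t76 : CovD 1 gA4 [(97352417280, 5726797824), (481036337152, 68719476736), (1374389534720, 1374389534720)] :=
  covD_split 1 (by decide +kernel) A4_c0_t77 A4_c0_t80

theorem A4_c0_t75 : CovD 1 gA4 [(97352417280, 5726797824), (481036337152, 68719476736), (2748779069440, 2748779069440)] :=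
  covD_split 2 (by decide +kernel) A4_c0_t76 A4_c0_t81

theorem A4_c0_t74 : CovD 1 gA4 [(97352417280, 5726797824), (481036337152, 68719476736), (5497558138880, 5497558138880)] :=
  covD_split 2 (by decide +kernel) A4_c0_t75 A4_c0_t82

theorem A4_c0_t85 : CovD 1 gA4 [(108806012928, 5726797824), (446676598784, 34359738368), (2748779069440, 2748779069440)] :=
  covD_split 2 (by decide +kernel) A4_c0_t86 A4_c0_t87

theorem A4_c0_t88 : CovD 1 gA4 [(108806012928, 5726797824), (515396075520, 34359738368), (2748779069440, 2748779069440)] :=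
  covD_split 2 (by decide +kernel) A4_c0_t89 A4_c0_t90

theorem A4_c0_t84 : CovD 1 gA4 [(108806012928, 5726797824), (481036337152, 68719476736), (2748779069440, 2748779069440)] :=
  covD_split 1 (by decide +kernel) A4_c0_t85 A4_c0_t88

theorem A4_c0_t83 : CovD 1 gA4 [(108806012928, 5726797824), (481036337152, 68719476736), (5497558138880, 5497558138880)] :=
  covD_split 2 (by decide +kernel) A4_c0_t84 A4_c0_t91

theorem A4_c0_t73 : CovD 1 gA4 [(103079215104, 11453595648), (481036337152, 68719476736), (5497558138880, 5497558138880)] :=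
  covD_split 0 (by decide +kernel) A4_c0_t74 A4_c0_t83

theorem A4_c0_t95 : CovD 1 gA4 [(120259608576, 5726797824), (446676598784, 34359738368), (2748779069440, 2748779069440)] :=
  covD_split 2 (by decide +kernel) A4_c0_t96 A4_c0_t97

theorem A4_c0_t94 : CovD 1 gA4 [(120259608576, 5726797824), (446676598784, 34359738368), (5497558138880, 5497558138880)] :=
  covD_split 2 (by decide +kernel) A4_c0_t95 A4_c0_t98

theorem A4_c0_t100 : CovD 1 gA4 [(120259608576, 5726797824), (515396075520, 34359738368), (2748779069440, 2748779069440)] :=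
  covD_split 2 (by decide +kernel) A4_c0_t101 A4_c0_t102

theorem A4_c0_t99 : CovD 1 gA4 [(120259608576, 5726797824), (515396075520, 34359738368), (5497558138880, 5497558138880)] :=
  covD_split 2 (by decide +kernel) A4_c0_t100 A4_c0_t103

theorem A4_c0_t93 : CovD 1 gA4 [(120259608576, 5726797824), (481036337152, 68719476736), (5497558138880, 5497558138880)] :=
  covD_split 1 (by decide +kernel) A4_c0_t94 A4_c0_t99

theorem A4_c0_t106 : CovD 1 gA4 [(131713204224, 5726797824), (446676598784, 34359738368), (2748779069440, 2748779069440)] :=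
  covD_split 2 (by decide +kernel) A4_c0_t107 A4_c0_t108

theorem A4_c0_t105 : CovD 1 gA4 [(131713204224, 5726797824), (446676598784, 34359738368), (5497558138880, 5497558138880)] :=
  covD_split 2 (by decide +kernel) A4_c0_t106 A4_c0_t109

theorem A4_c0_t111 : CovD 1 gA4 [(131713204224, 5726797824), (515396075520, 34359738368), (2748779069440, 2748779069440)] :=
  covD_split 2 (by decide +kernel) A4_c0_t112 A4_c0_t113

theorem A4_c0_t110 : CovD 1 gA4 [(131713204224, 5726797824), (515396075520, 34359738368), (5497558138880, 5497558138880)] :=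
  covD_split 2 (by decide +kernel) A4_c0_t111 A4_c0_t114

theorem A4_c0_t104 : CovD 1 gA4 [(131713204224, 5726797824), (481036337152, 68719476736), (5497558138880, 5497558138880)] :=
  covD_split 1 (by decide +kernel) A4_c0_t105 A4_c0_t110

theorem A4_c0_t92 : CovD 1 gA4 [(125986406400, 11453595648), (481036337152, 68719476736), (5497558138880, 5497558138880)] :=
  covD_split 0 (by decide +kernel) A4_c0_t93 A4_c0_t104

theorem A4_c0_t72 : CovD 1 gA4 [(114532810752, 22907191296), (481036337152, 68719476736), (5497558138880, 5497558138880)] :=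
  covD_split 0 (by decide +kernel) A4_c0_t73 A4_c0_t92

theorem A4_c0 : CovD 1 gA4 [(114532810752, 22907191296), (412316860416, 137438953472), (5497558138880, 5497558138880)] :=
  covD_split 1 (by decide +kernel) A4_c0_t1 A4_c0_t72

theorem B4_c0_t2 : CovD 1 gB4 [(125986406400, 11453595648), (412316860416, 137438953472), (54975791104, 54975791104)] :=
  covD_split 0 (by decide +kernel) B4_c0_t3 B4_c0_t4

theorem B4_c0 : CovD 1 gB4 [(114532810752, 22907191296), (412316860416, 137438953472), (54975791104, 54975791104)] :=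
  covD_split 0 (by decide +kernel) B4_c0_t1 B4_c0_t2

theorem D4_c0_t1 : CovD 1 gD4 [(103079215104, 11453595648), (412316860416, 137438953472), (863554764800, 863554764800)] :=
  covD_split 1 (by decide +kernel) D4_c0_t2 D4_c0_t3

theorem D4_c0_t4 : CovD 1 gD4 [(125986406400, 11453595648), (412316860416, 137438953472), (863554764800, 863554764800)] :=
  covD_split 1 (by decide +kernel) D4_c0_t5 D4_c0_t6

theorem D4_c0 : CovD 1 gD4 [(114532810752, 22907191296), (412316860416, 137438953472), (863554764800, 863554764800)] :=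
  covD_split 0 (by decide +kernel) D4_c0_t1 D4_c0_t4

end Pool.Agent.helper14.NR.E8b
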