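import Pool.Agent.helper14.NR.E8b.PN5

/-!
Generated: certificates.
-/

namespace Pool.Agent.helper14.NR.E8b

open Pool.Agent.helper31.IA (Z)
open Pool.Agent.helper31.IX (Op XOps runX Cov CovD cov_split covD_split)
open Pool.Agent.helper31.IC (TD)
open Pool.Agent.helper63.RG (reloc)
open Pool.Agent.helper63.NF hiding TD
open Pool.Agent.helper14.CF (xE covD_E)
open Pool.Agent.helper14.NR (share)

mutual
theorem A5_c1_t7 : CovD 1 gA5 [(97352417280, 5726797824), (446676598784, 34359738368), (343597383680, 343597383680)] :=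
  covD_E kA5_eq (.n 0 (.n 2 (.n 2 (.n 2 (.l 0) (.l 0)) (.n 2 (.l 0) (.l 0))) (.n 1 (.n 2 (.l 0) (.l 0)) (.n 2 (.l 0) (.l 0)))) (.n 2 (.n 2 (.n 2 (.l 0) (.l 0)) (.n 2 (.l 0) (.l 0))) (.n 1 (.n 2 (.l 0) (.l 0)) (.n 2 (.l 0) (.l 0)))))
    [(97352417280, 5726797824), (446676598784, 34359738368), (343597383680, 343597383680)] rfl (by decide +kernel)
theorem A5_c1_t8 : CovD 1 gA5 [(97352417280, 5726797824), (446676598784, 34359738368), (1030792151040, 343597383680)] :=
  covD_E kA5_eq (.n 2 (.n 0 (.n 2 (.l 0) (.l 0)) (.n 2 (.l 0) (.l 0))) (.n 2 (.n 0 (.l 0) (.l 0)) (.l 0)))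
    [(97352417280, 5726797824), (446676598784, 34359738368), (1030792151040, 343597383680)] rfl (by decide +kernel)
end

mutual
theorem A5_c1_t9 : CovD 1 gA5 [(97352417280, 5726797824), (446676598784, 34359738368), (2061584302080, 687194767360)] :=
  covD_E kA5_eq (.n 2 (.n 2 (.n 0 (.l 0) (.l 0)) (.l 0)) (.n 0 (.l 0) (.l 0)))
    [(97352417280, 5726797824), (446676598784, 34359738368), (2061584302080, 687194767360)] rfl (by decide +kernel)
theorem A5_c1_t10 : CovD 1 gA5 [(97352417280, 5726797824), (446676598784, 34359738368), (4123168604160, 1374389534720)] :=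
  covD_E kA5_eq (.n 2 (.n 2 (.n 0 (.l 0) (.l 0)) (.l 0)) (.n 2 (.l 0) (.l 0)))
    [(97352417280, 5726797824), (446676598784, 34359738368), (4123168604160, 1374389534720)] rfl (by decide +kernel)
end

mutual
theorem A5_c1_t14 : CovD 1 gA5 [(97352417280, 5726797824), (515396075520, 34359738368), (343597383680, 343597383680)] :=
  covD_E kA5_eq (.n 2 (.n 2 (.n 2 (.l 0) (.n 0 (.l 0) (.l 0))) (.n 0 (.n 1 (.l 0) (.l 0)) (.n 1 (.l 0) (.l 0)))) (.n 2 (.n 2 (.n 0 (.l 0) (.l 0)) (.l 0)) (.n 0 (.l 0) (.l 0))))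
    [(97352417280, 5726797824), (515396075520, 34359738368), (343597383680, 343597383680)] rfl (by decide +kernel)
theorem A5_c1_t15 : CovD 1 gA5 [(97352417280, 5726797824), (515396075520, 34359738368), (1030792151040, 343597383680)] :=
  covD_E kA5_eq (.n 2 (.n 0 (.n 2 (.l 0) (.l 0)) (.n 2 (.l 0) (.l 0))) (.n 2 (.l 0) (.l 0)))
    [(97352417280, 5726797824), (515396075520, 34359738368), (1030792151040, 343597383680)] rfl (by decide +kernel)
end

mutual
theorem A5_c1_t16 : CovD 1 gA5 [(97352417280, 5726797824), (515396075520, 34359738368), (2061584302080, 687194767360)] :=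
  covD_E kA5_eq (.n 2 (.n 2 (.n 0 (.l 0) (.l 0)) (.l 0)) (.n 0 (.l 0) (.l 0)))
    [(97352417280, 5726797824), (515396075520, 34359738368), (2061584302080, 687194767360)] rfl (by decide +kernel)
theorem A5_c1_t17 : CovD 1 gA5 [(97352417280, 5726797824), (515396075520, 34359738368), (4123168604160, 1374389534720)] :=
  covD_E kA5_eq (.n 2 (.n 2 (.l 0) (.l 0)) (.n 0 (.l 0) (.l 0)))
    [(97352417280, 5726797824), (515396075520, 34359738368), (4123168604160, 1374389534720)] rfl (by decide +kernel)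
end

mutual
theorem A5_c1_t19 : CovD 1 gA5 [(94489018368, 2863398912), (481036337152, 68719476736), (8246337208320, 2748779069440)] :=
  covD_E kA5_eq (.n 2 (.n 2 (.n 1 (.n 2 (.l 0) (.n 0 (.l 1) (.l 0))) (.n 2 (.l 0) (.l 0))) (.n 2 (.n 0 (.l 1) (.n 0 (.l 1) (.l 0))) (.l 1))) (.n 2 (.l 1) (.l 1)))
    [(94489018368, 2863398912), (481036337152, 68719476736), (8246337208320, 2748779069440)] rfl (by decide +kernel)
theorem A5_c1_t20 : CovD 1 gA5 [(100215816192, 2863398912), (481036337152, 68719476736), (8246337208320, 2748779069440)] :=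
  covD_E kA5_eq (.n 1 (.n 2 (.n 2 (.l 0) (.l 0)) (.n 2 (.l 0) (.l 1))) (.n 2 (.n 2 (.l 0) (.l 0)) (.n 2 (.l 0) (.l 0))))
    [(100215816192, 2863398912), (481036337152, 68719476736), (8246337208320, 2748779069440)] rfl (by decide +kernel)
end

mutual
theorem A5_c1_t26 : CovD 1 gA5 [(108806012928, 5726797824), (446676598784, 34359738368), (343597383680, 343597383680)] :=
  covD_E kA5_eq (.n 1 (.n 2 (.n 2 (.n 2 (.l 0) (.l 0)) (.n 2 (.l 0) (.l 0))) (.n 0 (.n 2 (.l 0) (.l 0)) (.n 2 (.l 0) (.l 0)))) (.n 2 (.n 2 (.n 2 (.l 0) (.l 0)) (.n 0 (.l 0) (.l 0))) (.n 2 (.n 0 (.l 0) (.l 0)) (.l 0))))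
    [(108806012928, 5726797824), (446676598784, 34359738368), (343597383680, 343597383680)] rfl (by decide +kernel)
theorem A5_c1_t27 : CovD 1 gA5 [(108806012928, 5726797824), (446676598784, 34359738368), (1030792151040, 343597383680)] :=
  covD_E kA5_eq (.n 2 (.n 0 (.n 2 (.l 0) (.l 0)) (.n 2 (.l 0) (.l 0))) (.n 2 (.l 0) (.l 0)))
    [(108806012928, 5726797824), (446676598784, 34359738368), (1030792151040, 343597383680)] rfl (by decide +kernel)
end

mutual
theorem A5_c1_t28 : CovD 1 gA5 [(108806012928, 5726797824), (446676598784, 34359738368), (2061584302080, 687194767360)] :=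
  covD_E kA5_eq (.n 2 (.n 2 (.n 0 (.l 0) (.l 0)) (.l 0)) (.n 0 (.l 0) (.l 0)))
    [(108806012928, 5726797824), (446676598784, 34359738368), (2061584302080, 687194767360)] rfl (by decide +kernel)
theorem A5_c1_t29 : CovD 1 gA5 [(108806012928, 5726797824), (446676598784, 34359738368), (4123168604160, 1374389534720)] :=
  covD_E kA5_eq (.n 2 (.n 2 (.n 0 (.l 0) (.l 0)) (.l 0)) (.n 0 (.l 0) (.l 0)))
    [(108806012928, 5726797824), (446676598784, 34359738368), (4123168604160, 1374389534720)] rfl (by decide +kernel)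
end

mutual
theorem A5_c1_t30 : CovD 1 gA5 [(108806012928, 5726797824), (446676598784, 34359738368), (8246337208320, 2748779069440)] :=
  covD_E kA5_eq (.n 2 (.n 2 (.l 0) (.l 0)) (.n 0 (.l 0) (.l 0)))
    [(108806012928, 5726797824), (446676598784, 34359738368), (8246337208320, 2748779069440)] rfl (by decide +kernel)
theorem A5_c1_t34 : CovD 1 gA5 [(108806012928, 5726797824), (515396075520, 34359738368), (687194767360, 687194767360)] :=
  covD_E kA5_eq (.n 2 (.n 2 (.n 2 (.n 2 (.l 0) (.l 0)) (.n 2 (.l 0) (.l 0))) (.n 2 (.n 2 (.l 0) (.l 0)) (.n 0 (.l 0) (.l 0)))) (.n 2 (.n 2 (.n 0 (.l 0) (.l 0)) (.l 0)) (.n 0 (.l 0) (.l 0))))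
    [(108806012928, 5726797824), (515396075520, 34359738368), (687194767360, 687194767360)] rfl (by decide +kernel)
end

mutual
theorem A5_c1_t35 : CovD 1 gA5 [(108806012928, 5726797824), (515396075520, 34359738368), (2061584302080, 687194767360)] :=
  covD_E kA5_eq (.n 2 (.n 2 (.n 0 (.l 0) (.l 0)) (.l 0)) (.n 0 (.l 0) (.l 0)))
    [(108806012928, 5726797824), (515396075520, 34359738368), (2061584302080, 687194767360)] rfl (by decide +kernel)
theorem A5_c1_t36 : CovD 1 gA5 [(108806012928, 5726797824), (515396075520, 34359738368), (4123168604160, 1374389534720)] :=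
  covD_E kA5_eq (.n 2 (.n 2 (.l 0) (.l 0)) (.n 0 (.l 0) (.l 0)))
    [(108806012928, 5726797824), (515396075520, 34359738368), (4123168604160, 1374389534720)] rfl (by decide +kernel)
end

mutual
theorem A5_c1_t37 : CovD 1 gA5 [(108806012928, 5726797824), (515396075520, 34359738368), (8246337208320, 2748779069440)] :=
  covD_E kA5_eq (.n 2 (.n 2 (.l 0) (.l 0)) (.n 0 (.l 0) (.l 0)))
    [(108806012928, 5726797824), (515396075520, 34359738368), (8246337208320, 2748779069440)] rfl (by decide +kernel)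
theorem A5_c1_t44 : CovD 1 gA5 [(120259608576, 5726797824), (446676598784, 34359738368), (343597383680, 343597383680)] :=
  covD_E kA5_eq (.n 1 (.n 2 (.n 2 (.n 2 (.l 0) (.l 0)) (.n 2 (.l 0) (.l 0))) (.n 2 (.n 0 (.l 0) (.l 0)) (.l 0))) (.n 2 (.n 0 (.n 2 (.l 0) (.l 0)) (.n 2 (.l 0) (.l 0))) (.n 2 (.n 0 (.l 0) (.l 0)) (.l 0))))
    [(120259608576, 5726797824), (446676598784, 34359738368), (343597383680, 343597383680)] rfl (by decide +kernel)
end

mutual
theorem A5_c1_t45 : CovD 1 gA5 [(120259608576, 5726797824), (446676598784, 34359738368), (1030792151040, 343597383680)] :=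
  covD_E kA5_eq (.n 2 (.n 0 (.n 2 (.l 0) (.l 0)) (.n 2 (.l 0) (.l 0))) (.n 2 (.l 0) (.l 0)))
    [(120259608576, 5726797824), (446676598784, 34359738368), (1030792151040, 343597383680)] rfl (by decide +kernel)
theorem A5_c1_t46 : CovD 1 gA5 [(120259608576, 5726797824), (446676598784, 34359738368), (2061584302080, 687194767360)] :=
  covD_E kA5_eq (.n 2 (.n 2 (.n 0 (.l 0) (.l 0)) (.l 0)) (.n 0 (.l 0) (.l 0)))
    [(120259608576, 5726797824), (446676598784, 34359738368), (2061584302080, 687194767360)] rfl (by decide +kernel)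
end

mutual
theorem A5_c1_t47 : CovD 1 gA5 [(120259608576, 5726797824), (446676598784, 34359738368), (4123168604160, 1374389534720)] :=
  covD_E kA5_eq (.n 2 (.n 2 (.l 0) (.l 0)) (.n 0 (.l 0) (.l 0)))
    [(120259608576, 5726797824), (446676598784, 34359738368), (4123168604160, 1374389534720)] rfl (by decide +kernel)
theorem A5_c1_t48 : CovD 1 gA5 [(120259608576, 5726797824), (446676598784, 34359738368), (8246337208320, 2748779069440)] :=
  covD_E kA5_eq (.n 2 (.n 2 (.l 0) (.l 0)) (.n 0 (.l 0) (.l 0)))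
    [(120259608576, 5726797824), (446676598784, 34359738368), (8246337208320, 2748779069440)] rfl (by decide +kernel)
end

mutual
theorem A5_c1_t52 : CovD 1 gA5 [(120259608576, 5726797824), (515396075520, 34359738368), (687194767360, 687194767360)] :=
  covD_E kA5_eq (.n 2 (.n 2 (.n 2 (.n 2 (.l 0) (.l 0)) (.n 2 (.l 0) (.l 0))) (.n 1 (.n 2 (.l 0) (.l 0)) (.n 2 (.l 0) (.l 0)))) (.n 2 (.n 2 (.n 0 (.l 0) (.l 0)) (.l 0)) (.n 0 (.l 0) (.l 0))))
    [(120259608576, 5726797824), (515396075520, 34359738368), (687194767360, 687194767360)] rfl (by decide +kernel)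
theorem A5_c1_t53 : CovD 1 gA5 [(120259608576, 5726797824), (515396075520, 34359738368), (2061584302080, 687194767360)] :=
  covD_E kA5_eq (.n 2 (.n 2 (.l 0) (.l 0)) (.n 0 (.l 0) (.l 0)))
    [(120259608576, 5726797824), (515396075520, 34359738368), (2061584302080, 687194767360)] rfl (by decide +kernel)
end

mutual
theorem A5_c1_t54 : CovD 1 gA5 [(120259608576, 5726797824), (515396075520, 34359738368), (4123168604160, 1374389534720)] :=
  covD_E kA5_eq (.n 2 (.n 2 (.l 0) (.l 0)) (.n 0 (.l 0) (.l 0)))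
    [(120259608576, 5726797824), (515396075520, 34359738368), (4123168604160, 1374389534720)] rfl (by decide +kernel)
theorem A5_c1_t55 : CovD 1 gA5 [(120259608576, 5726797824), (515396075520, 34359738368), (8246337208320, 2748779069440)] :=
  covD_E kA5_eq (.n 2 (.n 2 (.l 0) (.l 0)) (.n 0 (.l 0) (.l 0)))
    [(120259608576, 5726797824), (515396075520, 34359738368), (8246337208320, 2748779069440)] rfl (by decide +kernel)
end

mutual
theorem A5_c1_t61 : CovD 1 gA5 [(131713204224, 5726797824), (446676598784, 34359738368), (343597383680, 343597383680)] :=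
  covD_E kA5_eq (.n 2 (.n 2 (.n 2 (.l 0) (.n 0 (.l 0) (.l 0))) (.n 0 (.n 2 (.l 0) (.l 0)) (.n 2 (.l 0) (.l 0)))) (.n 2 (.n 2 (.n 0 (.l 0) (.l 0)) (.l 0)) (.n 1 (.l 0) (.l 0))))
    [(131713204224, 5726797824), (446676598784, 34359738368), (343597383680, 343597383680)] rfl (by decide +kernel)
theorem A5_c1_t62 : CovD 1 gA5 [(131713204224, 5726797824), (446676598784, 34359738368), (1030792151040, 343597383680)] :=
  covD_E kA5_eq (.n 2 (.n 2 (.n 0 (.l 0) (.l 0)) (.l 0)) (.n 0 (.l 0) (.l 0)))
    [(131713204224, 5726797824), (446676598784, 34359738368), (1030792151040, 343597383680)] rfl (by decide +kernel)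
end

mutual
theorem A5_c1_t63 : CovD 1 gA5 [(131713204224, 5726797824), (446676598784, 34359738368), (2061584302080, 687194767360)] :=
  covD_E kA5_eq (.n 2 (.n 2 (.l 0) (.l 0)) (.n 0 (.l 0) (.l 0)))
    [(131713204224, 5726797824), (446676598784, 34359738368), (2061584302080, 687194767360)] rfl (by decide +kernel)
theorem A5_c1_t64 : CovD 1 gA5 [(131713204224, 5726797824), (446676598784, 34359738368), (4123168604160, 1374389534720)] :=
  covD_E kA5_eq (.n 2 (.n 2 (.l 0) (.l 0)) (.n 0 (.l 0) (.l 0)))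
    [(131713204224, 5726797824), (446676598784, 34359738368), (4123168604160, 1374389534720)] rfl (by decide +kernel)
end

mutual
theorem A5_c1_t65 : CovD 1 gA5 [(131713204224, 5726797824), (446676598784, 34359738368), (8246337208320, 2748779069440)] :=
  covD_E kA5_eq (.n 2 (.n 2 (.l 0) (.l 0)) (.n 0 (.l 0) (.l 0)))
    [(131713204224, 5726797824), (446676598784, 34359738368), (8246337208320, 2748779069440)] rfl (by decide +kernel)
theorem A5_c1_t69 : CovD 1 gA5 [(131713204224, 5726797824), (515396075520, 34359738368), (687194767360, 687194767360)] :=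
  covD_E kA5_eq (.n 2 (.n 2 (.n 2 (.n 2 (.l 0) (.l 0)) (.n 2 (.l 0) (.l 0))) (.n 1 (.n 2 (.l 0) (.l 0)) (.n 2 (.l 0) (.l 0)))) (.n 2 (.n 2 (.n 0 (.l 0) (.l 0)) (.l 0)) (.n 0 (.l 0) (.l 0))))
    [(131713204224, 5726797824), (515396075520, 34359738368), (687194767360, 687194767360)] rfl (by decide +kernel)
end

mutual
theorem A5_c1_t70 : CovD 1 gA5 [(131713204224, 5726797824), (515396075520, 34359738368), (2061584302080, 687194767360)] :=
  covD_E kA5_eq (.n 2 (.n 2 (.l 0) (.l 0)) (.n 0 (.l 0) (.l 0)))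
    [(131713204224, 5726797824), (515396075520, 34359738368), (2061584302080, 687194767360)] rfl (by decide +kernel)
theorem A5_c1_t71 : CovD 1 gA5 [(131713204224, 5726797824), (515396075520, 34359738368), (4123168604160, 1374389534720)] :=
  covD_E kA5_eq (.n 2 (.n 2 (.l 0) (.l 0)) (.n 0 (.l 0) (.l 0)))
    [(131713204224, 5726797824), (515396075520, 34359738368), (4123168604160, 1374389534720)] rfl (by decide +kernel)
end

mutual
theorem A5_c1_t72 : CovD 1 gA5 [(131713204224, 5726797824), (515396075520, 34359738368), (8246337208320, 2748779069440)] :=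
  covD_E kA5_eq (.n 2 (.n 2 (.l 0) (.l 0)) (.n 0 (.l 0) (.l 0)))
    [(131713204224, 5726797824), (515396075520, 34359738368), (8246337208320, 2748779069440)] rfl (by decide +kernel)
theorem B5_c0_t2 : CovD 1 gB5 [(97352417280, 5726797824), (412316860416, 137438953472), (54975791104, 54975791104)] :=
  covD_E kB5_eq (.n 1 (.n 2 (.n 1 (.l 1) (.l 1)) (.n 0 (.l 1) (.n 2 (.l 1) (.l 1)))) (.n 2 (.n 2 (.l 1) (.l 1)) (.n 0 (.n 0 (.l 1) (.l 1)) (.n 2 (.l 1) (.n 1 (.l 1) (.l 1))))))
    [(97352417280, 5726797824), (412316860416, 137438953472), (54975791104, 54975791104)] rfl (by decide +kernel)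
end

mutual
theorem B5_c0_t4 : CovD 1 gB5 [(105942614016, 2863398912), (412316860416, 137438953472), (54975791104, 54975791104)] :=
  covD_E kB5_eq (.n 1 (.n 2 (.n 2 (.l 1) (.n 1 (.l 1) (.l 1))) (.n 1 (.n 2 (.l 1) (.n 0 (.l 1) (.l 0))) (.n 2 (.l 0) (.l 0)))) (.n 2 (.n 2 (.l 0) (.l 0)) (.n 2 (.l 0) (.l 0))))
    [(105942614016, 2863398912), (412316860416, 137438953472), (54975791104, 54975791104)] rfl (by decide +kernel)
theorem B5_c0_t5 : CovD 1 gB5 [(111669411840, 2863398912), (412316860416, 137438953472), (54975791104, 54975791104)] :=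
  covD_E kB5_eq (.n 1 (.n 1 (.n 2 (.l 0) (.l 0)) (.n 2 (.l 0) (.l 0))) (.n 2 (.l 0) (.n 0 (.l 0) (.l 0))))
    [(111669411840, 2863398912), (412316860416, 137438953472), (54975791104, 54975791104)] rfl (by decide +kernel)
end

mutual
theorem B5_c0_t7 : CovD 1 gB5 [(120259608576, 5726797824), (412316860416, 137438953472), (54975791104, 54975791104)] :=
  covD_E kB5_eq (.n 1 (.n 1 (.n 2 (.l 0) (.n 0 (.l 0) (.l 0))) (.n 2 (.l 0) (.l 0))) (.n 0 (.n 2 (.l 0) (.l 0)) (.n 2 (.l 0) (.l 0))))
    [(120259608576, 5726797824), (412316860416, 137438953472), (54975791104, 54975791104)] rfl (by decide +kernel)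
theorem B5_c0_t8 : CovD 1 gB5 [(131713204224, 5726797824), (412316860416, 137438953472), (54975791104, 54975791104)] :=
  covD_E kB5_eq (.n 1 (.n 1 (.n 2 (.l 0) (.l 0)) (.n 2 (.l 0) (.l 0))) (.n 0 (.n 1 (.l 0) (.l 0)) (.n 1 (.l 0) (.l 0))))
    [(131713204224, 5726797824), (412316860416, 137438953472), (54975791104, 54975791104)] rfl (by decide +kernel)
end

mutual
theorem D5_c0_t2 : CovD 1 gD5 [(103079215104, 11453595648), (343597383680, 68719476736), (863554764800, 863554764800)] :=
  covD_E kD5_eq (.n 2 (.n 2 (.n 2 (.l 0) (.l 0)) (.n 0 (.n 2 (.l 0) (.l 0)) (.n 1 (.l 0) (.l 0)))) (.n 0 (.n 2 (.n 2 (.l 0) (.l 0)) (.n 2 (.l 0) (.n 2 (.l 0) (.l 0)))) (.n 2 (.n 2 (.l 0) (.l 0)) (.n 2 (.l 0) (.l 1)))))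
    [(103079215104, 11453595648), (343597383680, 68719476736), (863554764800, 863554764800)] rfl (by decide +kernel)
theorem D5_c0_t3 : CovD 1 gD5 [(103079215104, 11453595648), (481036337152, 68719476736), (863554764800, 863554764800)] :=
  covD_E kD5_eq (.n 2 (.n 2 (.n 0 (.l 0) (.l 0)) (.n 2 (.l 0) (.l 0))) (.n 0 (.n 2 (.n 2 (.l 0) (.l 0)) (.n 2 (.l 0) (.l 0))) (.n 2 (.n 2 (.l 0) (.l 0)) (.n 2 (.l 0) (.l 1)))))
    [(103079215104, 11453595648), (481036337152, 68719476736), (863554764800, 863554764800)] rfl (by decide +kernel)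
end

mutual
theorem D5_c0_t5 : CovD 1 gD5 [(125986406400, 11453595648), (343597383680, 68719476736), (863554764800, 863554764800)] :=
  covD_E kD5_eq (.n 1 (.n 2 (.n 2 (.n 2 (.l 0) (.l 0)) (.n 2 (.l 0) (.l 0))) (.n 2 (.n 0 (.n 2 (.l 0) (.l 0)) (.l 1)) (.l 1))) (.n 2 (.n 2 (.n 2 (.l 0) (.l 0)) (.n 2 (.l 0) (.l 0))) (.n 2 (.n 2 (.l 0) (.l 1)) (.l 1))))
    [(125986406400, 11453595648), (343597383680, 68719476736), (863554764800, 863554764800)] rfl (by decide +kernel)
theorem D5_c0_t6 : CovD 1 gD5 [(125986406400, 11453595648), (481036337152, 68719476736), (863554764800, 863554764800)] :=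
  covD_E kD5_eq (.n 2 (.n 2 (.n 2 (.l 0) (.n 0 (.l 0) (.l 0))) (.n 0 (.n 2 (.l 0) (.l 0)) (.n 2 (.l 0) (.l 0)))) (.n 0 (.n 2 (.n 2 (.l 0) (.l 0)) (.l 1)) (.n 2 (.l 1) (.l 1))))
    [(125986406400, 11453595648), (481036337152, 68719476736), (863554764800, 863554764800)] rfl (by decide +kernel)
end

mutual
theorem E5_c0_t1 : CovD 1 gE5 [(114532810752, 22907191296), (412316860416, 137438953472), (431777382400, 431777382400)] :=
  covD_E kE5_eq (.n 1 (.n 0 (.n 2 (.l 1) (.l 1)) (.n 2 (.l 1) (.l 1))) (.n 2 (.l 1) (.n 0 (.l 1) (.l 1))))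
    [(114532810752, 22907191296), (412316860416, 137438953472), (431777382400, 431777382400)] rfl (by decide +kernel)
theorem E5_c0_t2 : CovD 1 gE5 [(114532810752, 22907191296), (412316860416, 137438953472), (1295332147200, 431777382400)] :=
  covD_E kE5_eq (.n 0 (.n 1 (.n 0 (.n 2 (.l 1) (.n 0 (.n 2 (.l 1) (.l 1)) (.l 1))) (.n 2 (.l 1) (.l 1))) (.n 2 (.l 1) (.n 0 (.n 2 (.l 1) (.l 1)) (.l 1)))) (.n 1 (.n 2 (.l 1) (.l 1)) (.n 2 (.l 1) (.l 1))))
    [(114532810752, 22907191296), (412316860416, 137438953472), (1295332147200, 431777382400)] rfl (by decide +kernel)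
end

theorem A5_c1_t6 : CovD 1 gA5 [(97352417280, 5726797824), (446676598784, 34359738368), (687194767360, 687194767360)] :=
  covD_split 2 (by decide +kernel) A5_c1_t7 A5_c1_t8

theorem A5_c1_t5 : CovD 1 gA5 [(97352417280, 5726797824), (446676598784, 34359738368), (1374389534720, 1374389534720)] :=
  covD_split 2 (by decide +kernel) A5_c1_t6 A5_c1_t9

theorem A5_c1_t4 : CovD 1 gA5 [(97352417280, 5726797824), (446676598784, 34359738368), (2748779069440, 2748779069440)] :=
  covD_split 2 (by decide +kernel) A5_c1_t5 A5_c1_t10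

theorem A5_c1_t13 : CovD 1 gA5 [(97352417280, 5726797824), (515396075520, 34359738368), (687194767360, 687194767360)] :=
  covD_split 2 (by decide +kernel) A5_c1_t14 A5_c1_t15

theorem A5_c1_t12 : CovD 1 gA5 [(97352417280, 5726797824), (515396075520, 34359738368), (1374389534720, 1374389534720)] :=
  covD_split 2 (by decide +kernel) A5_c1_t13 A5_c1_t16

theorem A5_c1_t11 : CovD 1 gA5 [(97352417280, 5726797824), (515396075520, 34359738368), (2748779069440, 2748779069440)] :=
  covD_split 2 (by decide +kernel) A5_c1_t12 A5_c1_t17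

theorem A5_c1_t3 : CovD 1 gA5 [(97352417280, 5726797824), (481036337152, 68719476736), (2748779069440, 2748779069440)] :=
  covD_split 1 (by decide +kernel) A5_c1_t4 A5_c1_t11

theorem A5_c1_t18 : CovD 1 gA5 [(97352417280, 5726797824), (481036337152, 68719476736), (8246337208320, 2748779069440)] :=
  covD_split 0 (by decide +kernel) A5_c1_t19 A5_c1_t20

theorem A5_c1_t2 : CovD 1 gA5 [(97352417280, 5726797824), (481036337152, 68719476736), (5497558138880, 5497558138880)] :=
  covD_split 2 (by decide +kernel) A5_c1_t3 A5_c1_t18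

theorem A5_c1_t25 : CovD 1 gA5 [(108806012928, 5726797824), (446676598784, 34359738368), (687194767360, 687194767360)] :=
  covD_split 2 (by decide +kernel) A5_c1_t26 A5_c1_t27

theorem A5_c1_t24 : CovD 1 gA5 [(108806012928, 5726797824), (446676598784, 34359738368), (1374389534720, 1374389534720)] :=
  covD_split 2 (by decide +kernel) A5_c1_t25 A5_c1_t28

theorem A5_c1_t23 : CovD 1 gA5 [(108806012928, 5726797824), (446676598784, 34359738368), (2748779069440, 2748779069440)] :=
  covD_split 2 (by decide +kernel) A5_c1_t24 A5_c1_t29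

theorem A5_c1_t22 : CovD 1 gA5 [(108806012928, 5726797824), (446676598784, 34359738368), (5497558138880, 5497558138880)] :=
  covD_split 2 (by decide +kernel) A5_c1_t23 A5_c1_t30

theorem A5_c1_t33 : CovD 1 gA5 [(108806012928, 5726797824), (515396075520, 34359738368), (1374389534720, 1374389534720)] :=
  covD_split 2 (by decide +kernel) A5_c1_t34 A5_c1_t35

theorem A5_c1_t32 : CovD 1 gA5 [(108806012928, 5726797824), (515396075520, 34359738368), (2748779069440, 2748779069440)] :=
  covD_split 2 (by decide +kernel) A5_c1_t33 A5_c1_t36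

theorem A5_c1_t31 : CovD 1 gA5 [(108806012928, 5726797824), (515396075520, 34359738368), (5497558138880, 5497558138880)] :=
  covD_split 2 (by decide +kernel) A5_c1_t32 A5_c1_t37

theorem A5_c1_t21 : CovD 1 gA5 [(108806012928, 5726797824), (481036337152, 68719476736), (5497558138880, 5497558138880)] :=
  covD_split 1 (by decide +kernel) A5_c1_t22 A5_c1_t31

theorem A5_c1_t1 : CovD 1 gA5 [(103079215104, 11453595648), (481036337152, 68719476736), (5497558138880, 5497558138880)] :=
  covD_split 0 (by decide +kernel) A5_c1_t2 A5_c1_t21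

theorem A5_c1_t43 : CovD 1 gA5 [(120259608576, 5726797824), (446676598784, 34359738368), (687194767360, 687194767360)] :=
  covD_split 2 (by decide +kernel) A5_c1_t44 A5_c1_t45

theorem A5_c1_t42 : CovD 1 gA5 [(120259608576, 5726797824), (446676598784, 34359738368), (1374389534720, 1374389534720)] :=
  covD_split 2 (by decide +kernel) A5_c1_t43 A5_c1_t46

theorem A5_c1_t41 : CovD 1 gA5 [(120259608576, 5726797824), (446676598784, 34359738368), (2748779069440, 2748779069440)] :=
  covD_split 2 (by decide +kernel) A5_c1_t42 A5_c1_t47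

theorem A5_c1_t40 : CovD 1 gA5 [(120259608576, 5726797824), (446676598784, 34359738368), (5497558138880, 5497558138880)] :=
  covD_split 2 (by decide +kernel) A5_c1_t41 A5_c1_t48

theorem A5_c1_t51 : CovD 1 gA5 [(120259608576, 5726797824), (515396075520, 34359738368), (1374389534720, 1374389534720)] :=
  covD_split 2 (by decide +kernel) A5_c1_t52 A5_c1_t53

theorem A5_c1_t50 : CovD 1 gA5 [(120259608576, 5726797824), (515396075520, 34359738368), (2748779069440, 2748779069440)] :=
  covD_split 2 (by decide +kernel) A5_c1_t51 A5_c1_t54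

theorem A5_c1_t49 : CovD 1 gA5 [(120259608576, 5726797824), (515396075520, 34359738368), (5497558138880, 5497558138880)] :=
  covD_split 2 (by decide +kernel) A5_c1_t50 A5_c1_t55

theorem A5_c1_t39 : CovD 1 gA5 [(120259608576, 5726797824), (481036337152, 68719476736), (5497558138880, 5497558138880)] :=
  covD_split 1 (by decide +kernel) A5_c1_t40 A5_c1_t49

theorem A5_c1_t60 : CovD 1 gA5 [(131713204224, 5726797824), (446676598784, 34359738368), (687194767360, 687194767360)] :=
  covD_split 2 (by decide +kernel) A5_c1_t61 A5_c1_t62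

theorem A5_c1_t59 : CovD 1 gA5 [(131713204224, 5726797824), (446676598784, 34359738368), (1374389534720, 1374389534720)] :=
  covD_split 2 (by decide +kernel) A5_c1_t60 A5_c1_t63

theorem A5_c1_t58 : CovD 1 gA5 [(131713204224, 5726797824), (446676598784, 34359738368), (2748779069440, 2748779069440)] :=
  covD_split 2 (by decide +kernel) A5_c1_t59 A5_c1_t64

theorem A5_c1_t57 : CovD 1 gA5 [(131713204224, 5726797824), (446676598784, 34359738368), (5497558138880, 5497558138880)] :=
  covD_split 2 (by decide +kernel) A5_c1_t58 A5_c1_t65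

theorem A5_c1_t68 : CovD 1 gA5 [(131713204224, 5726797824), (515396075520, 34359738368), (1374389534720, 1374389534720)] :=
  covD_split 2 (by decide +kernel) A5_c1_t69 A5_c1_t70

theorem A5_c1_t67 : CovD 1 gA5 [(131713204224, 5726797824), (515396075520, 34359738368), (2748779069440, 2748779069440)] :=
  covD_split 2 (by decide +kernel) A5_c1_t68 A5_c1_t71

theorem A5_c1_t66 : CovD 1 gA5 [(131713204224, 5726797824), (515396075520, 34359738368), (5497558138880, 5497558138880)] :=
  covD_split 2 (by decide +kernel) A5_c1_t67 A5_c1_t72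

theorem A5_c1_t56 : CovD 1 gA5 [(131713204224, 5726797824), (481036337152, 68719476736), (5497558138880, 5497558138880)] :=
  covD_split 1 (by decide +kernel) A5_c1_t57 A5_c1_t66

theorem A5_c1_t38 : CovD 1 gA5 [(125986406400, 11453595648), (481036337152, 68719476736), (5497558138880, 5497558138880)] :=
  covD_split 0 (by decide +kernel) A5_c1_t39 A5_c1_t56

theorem A5_c1 : CovD 1 gA5 [(114532810752, 22907191296), (481036337152, 68719476736), (5497558138880, 5497558138880)] :=
  covD_split 0 (by decide +kernel) A5_c1_t1 A5_c1_t38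

theorem B5_c0_t3 : CovD 1 gB5 [(108806012928, 5726797824), (412316860416, 137438953472), (54975791104, 54975791104)] :=
  covD_split 0 (by decide +kernel) B5_c0_t4 B5_c0_t5

theorem B5_c0_t1 : CovD 1 gB5 [(103079215104, 11453595648), (412316860416, 137438953472), (54975791104, 54975791104)] :=
  covD_split 0 (by decide +kernel) B5_c0_t2 B5_c0_t3

theorem B5_c0_t6 : CovD 1 gB5 [(125986406400, 11453595648), (412316860416, 137438953472), (54975791104, 54975791104)] :=
  covD_split 0 (by decide +kernel) B5_c0_t7 B5_c0_t8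

theorem B5_c0 : CovD 1 gB5 [(114532810752, 22907191296), (412316860416, 137438953472), (54975791104, 54975791104)] :=
  covD_split 0 (by decide +kernel) B5_c0_t1 B5_c0_t6

theorem D5_c0_t1 : CovD 1 gD5 [(103079215104, 11453595648), (412316860416, 137438953472), (863554764800, 863554764800)] :=
  covD_split 1 (by decide +kernel) D5_c0_t2 D5_c0_t3

theorem D5_c0_t4 : CovD 1 gD5 [(125986406400, 11453595648), (412316860416, 137438953472), (863554764800, 863554764800)] :=
  covD_split 1 (by decide +kernel) D5_c0_t5 D5_c0_t6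

theorem D5_c0 : CovD 1 gD5 [(114532810752, 22907191296), (412316860416, 137438953472), (863554764800, 863554764800)] :=
  covD_split 0 (by decide +kernel) D5_c0_t1 D5_c0_t4

theorem E5_c0 : CovD 1 gE5 [(114532810752, 22907191296), (412316860416, 137438953472), (863554764800, 863554764800)] :=
  covD_split 2 (by decide +kernel) E5_c0_t1 E5_c0_t2

end Pool.Agent.helper14.NR.E8b
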