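import Pool.Agent.helper63.NF.Cert

/-!
Generated: table E8b.
-/

namespace Pool.Agent.helper14.NR.E8b

open Pool.Agent.helper63.NF

def tab : TD where
  strip := false
  bm := none
  ec := 114621939712
  bc := 412316860416
  H := [[[-80821829696, 82002767040, -26473815360, 17432519232], [-1201875321792, 226854688960, -331235766336], [1019697750336, 5480901223744], [13412596194944]], [[16846962944, -8996740800, -228615424], [196468697664, -124687883136], [-111163726592]], [[-2084956608, 297710976], [-18004731648]], [[93124032]], [[-337728]]]
  pol := some ⟨-972810092544, -4672924418048, 5872294035456, 31362867265536, [[10565634816, -459400608128], [928888312832, 0]], [[2935106789312, -351258195136], [39470226518848, 0]]⟩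
  a := [[[349987667968, 1101856768, -2309097455616, -5579389665280], [662259892224, -7296174260224]], [[189150920704, -74885890048, -899048996864, -2603091755008], [999458406400, -3117818970112]], [[155746697216, -68746805248, -732411330560, -1020665724928], [798801068032, -2685015687168]], [[124851453952, -50618695680, -536778244096, -753194237952], [576215646208, -2073237323776]], [[98417704960, -39545667584, -371871383552, -53285617664], [400243884032, -1459915456512]], [[76128714752, -23032299520, -242105909248, -60140552192], [248901337088, -1088803110912]]]
  j := [11957188952064, 15805479649280, 14568529068032, 12506944765952, 9758165696512, 6322191859712]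
  c := [879662989312, 879662989312, 659814350848, 549755813888, 439697276928, 329907175424]
  M := [[[[1106125848576, 60014526464, 90140442624], [-142940307456, 1976688574464], [6054112133120]], [[167282737152, 25812598784], [4842651123712]], [[617255272448, -39903887360], [-2118725861376]], [[-738745319424]], [[444216967168]], [[-123653586944]]], [[[1094608945152, 47158198272, 119463870464], [559476047872]], [[71431553024, 2685272064], [578682814464]], [[-3470327808]], [[278003712]]], [[[1097992830976, 52099547136, 119808655360], [348616261632]], [[69614567424, 2189754368], [569269813248]], [[-3024814080]], [[192348160]]], [[[1100094570496, 51257737216, 87501963264], [206775713792]], [[68662001664, 3468558336], [584440676352]], [[-2815098880]], [[167706624]]], [[[1100965347328, 43943264256, 71418380288], [156330360832]], [[67236986880, 4428988416], [599046881280]], [[-2285436928]], [[107151360]]], [[[1098817404928, 36602576896, 83855671296], [92560687104]], [[67676471296, 4806803456], [618215243776]], [[-2125987840]], [[77463552]]]]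
  l0 := [[[3599890474432, 190637879168, -83936014720], [3851966644928, -1589543387264], [-5438166739712]], [[597758443648, -639234844096, -157579387712], [-19518138455360, 496612675456], [-4544194607680]], [[-761004201152, 936176469824], [3000505654144]], [[310184248960, -752147721984], [-10053815065536]], [[786558292480, 340443870976], [-712887795520]], [[-2062734681280]], [[1738626091584]], [[-852609566656]]]
  q0 := [[164094487232, 458017383168, 104935945664, -308236223360], [1405819253696, 6161926146624, -5341784726272], [7737146852864, -37423612372480], [-422348130085632]]
  t := [[[1627720122368, 596978106368, 80357687296, 716594216960], [-3054965096448, 8362593615872]], [[806407438336, 469342683136, 1189255774208, -10916456628224], [2315128864768, 8685163315200]], [[773052301312, 280483790848, 552539717632, -209366876160], [1924494983168, 4459071471616]], [[733971087360, 265117696000, 104783675392, 61278322688], [1915835449344, 2556390932480]], [[725377220608, 332800655360, -337136386048, 666812284928], [2374189973504, 1539459579904]], [[766816813056, 674432614400, -641148387328, -297225748480], [3494435160064, 4744561885184]]]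
  y := [13725641736192, 14834817040384, 13805098631168, 11477226356736, 9061307252736, 7083474812928]
  sc := [0, 0, 0, 0, 0, 0]
  L := [(0, 2), (0, 3), (1, 1), (1, 2), (2, 0), (2, 1), (3, 0)]
  Lt := [(0, 2), (0, 3), (1, 1)]
  far := 1
  x2 := 10775213113344
  B1 := 659706347520
  C2 := 1327712154624
  f1 := 769658138624
  f2 := 0
  f3 := 0
  is1 := 8796093022208
  s1 := 137438953472

end Pool.Agent.helper14.NR.E8b
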